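import Pool.Agent.H295R2.M
import Pool.Agent.H448R2.GC.X2

set_option autoImplicit false

/-!
# The Laplace transform of the Nyman–Beurling functions
-/

namespace Pool.Agent.Zk17.NB

open MeasureTheory Set Filter Topology
open Pool.Agent.H295R2 (Nice Lap Hf Zt Zs fz Mx mu)

noncomputable section

/-- change of variables `t = exp v` -/
lemma Hf_lap (s : ℂ) : Hf s = ∫ v in Ioi (0:ℝ), ((Int.fract (Real.exp v) : ℝ):ℂ) * Complex.exp (-(s*v)) := by
  rw [Pool.Agent.H295R2.Hf_eq]
  have himg : Real.exp '' Ioi (0:ℝ) = Ioi 1 := by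
    ext t
    constructor
    · rintro ⟨v, hv, rfl⟩
      exact Real.one_lt_exp_iff.2 hv
    · intro ht
      exact ⟨Real.log t, Real.log_pos ht, Real.exp_log (by linarith [mem_Ioi.1 ht])⟩
  rw [← himg, integral_image_eq_integral_abs_deriv_smul measurableSet_Ioi
    (fun x _ => (Real.hasDerivAt_exp x).hasDerivWithinAt) (Real.exp_injective.injOn)]
  refine setIntegral_congr_fun measurableSet_Ioi fun v _ => ?_
  rw [abs_of_pos (Real.exp_pos v), Complex.real_smul]
  have h1 : ((Real.exp v : ℝ) : ℂ) = Complex.exp v := by push_cast; rfl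
  have h2 : ((Real.exp v : ℝ) : ℂ) ^ (-(s + 1)) = Complex.exp (-(s+1) * v) := by
    rw [Complex.cpow_def_of_ne_zero (by exact_mod_cast (Real.exp_pos v).ne'), ← Complex.ofReal_log (Real.exp_pos v).le,
      Real.log_exp, mul_comm]
  rw [h2, h1]
  have h3 : Complex.exp v * Complex.exp (-(s+1) * v) = Complex.exp (-(s*v)) := by
    rw [← Complex.exp_add]; congr 1; ring
  linear_combination ((Int.fract (Real.exp v) : ℝ):ℂ) * h3

/-- `{θ e^u}` for `u ≥ 0` -/
def fr0 (θ : ℝ) (u : ℝ) : ℂ := if 0 ≤ u then ((Int.fract (θ * Real.exp u) : ℝ) : ℂ) else 0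

lemma fr0_nice (θ : ℝ) : Nice (fr0 θ) 1 0 0 where
  meas := by
    refine Measurable.ite measurableSet_Ici ?_ measurable_const
    exact Complex.measurable_ofReal.comp (measurable_fract.comp (by fun_prop))
  bound := by
    intro u
    unfold fr0
    split_ifs
    · rw [Complex.norm_real, Real.norm_of_nonneg (Int.fract_nonneg _)]
      simpa using (Int.fract_lt_one _).le
    · simp
  zero := by
    intro u hu
    unfold fr0
    rw [if_neg (not_le.2 hu)]

lemma fr0_lap {θ : ℝ} (h0 : 0 < θ) (h1 : θ ≤ 1) {s : ℂ} (hs : 0 < s.re) :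
    s * (s - 1) * Lap (fr0 θ) s = θ * s - (θ:ℂ) ^ s * Zs s := by
  set b : ℝ := - Real.log θ with hb
  have hb0 : 0 ≤ b := by rw [hb]; linarith [Real.log_nonpos h0.le h1]
  have hθ : θ = Real.exp (-b) := by rw [hb, neg_neg, Real.exp_log h0]
  have hθs : (θ:ℂ) ^ s = Complex.exp (-(s * b)) := by
    rw [Complex.cpow_def_of_ne_zero (by exact_mod_cast h0.ne'), ← Complex.ofReal_log h0.le, hb]
    congr 1
    push_cast
    ring
  -- translation
  have e1 : Lap (fr0 θ) s = (θ:ℂ) ^ s * ∫ v in Ici (-b), ((Int.fract (Real.exp v) : ℝ):ℂ) * Complex.exp (-(s*v)) := by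
    unfold Lap
    rw [← integral_const_mul, ← integral_indicator measurableSet_Ici,
      ← integral_sub_right_eq_self (fun v : ℝ => (Ici (-b)).indicator (fun v : ℝ => (θ:ℂ) ^ s *
        (((Int.fract (Real.exp v) : ℝ):ℂ) * Complex.exp (-(s*v)))) v) b]
    refine integral_congr_ae (Eventually.of_forall fun u => ?_)
    simp only
    by_cases hu : 0 ≤ u
    · rw [indicator_of_mem (by rw [mem_Ici]; linarith)]
      unfold fr0
      rw [if_pos hu, hθs]
      have e2 : Real.exp (u - b) = θ * Real.exp u := by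
        rw [hθ, ← Real.exp_add]; congr 1; ring
      rw [e2]
      have e3 : Complex.exp (-(s * b)) * Complex.exp (-(s * ((u - b : ℝ) : ℂ))) = Complex.exp (-(s * u)) := by
        rw [← Complex.exp_add]; congr 1; push_cast; ring
      linear_combination (-((Int.fract (θ * Real.exp u) : ℝ):ℂ)) * e3
    · rw [indicator_of_notMem (by rw [mem_Ici]; linarith)]
      unfold fr0
      rw [if_neg hu, zero_mul]
  -- splitting
  have hint : IntegrableOn (fun v : ℝ => ((Int.fract (Real.exp v) : ℝ):ℂ) * Complex.exp (-(s*v))) (Ioi 0) := by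
    have h := (fr0_nice 1).integrable (s := s) hs
    refine (h.integrableOn (s := Ioi 0)).congr_fun (fun v hv => ?_) measurableSet_Ioi
    unfold fr0
    simp only
    rw [if_pos (le_of_lt hv), one_mul]
  have e4 : ∫ v in Ici (-b), ((Int.fract (Real.exp v) : ℝ):ℂ) * Complex.exp (-(s*v)) =
      (∫ v in (-b)..0, Complex.exp ((1 - s) * v)) + Hf s := by
    have hu : Ici (-b) = Icc (-b) 0 ∪ Ioi 0 := (Icc_union_Ioi_eq_Ici (by linarith)).symm
    have hcong : EqOn (fun v : ℝ => ((Int.fract (Real.exp v) : ℝ):ℂ) * Complex.exp (-(s*v)))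
        (fun v : ℝ => Complex.exp ((1 - s) * v)) (Ico (-b) 0) := by
      intro v hv
      simp only
      have h5 : Int.fract (Real.exp v) = Real.exp v :=
        Int.fract_eq_self.2 ⟨(Real.exp_pos v).le, by rw [Real.exp_lt_one_iff]; exact hv.2⟩
      rw [h5]
      push_cast
      rw [← Complex.exp_add]
      congr 1
      ring
    have hint2 : IntegrableOn (fun v : ℝ => Complex.exp ((1 - s) * v)) (Icc (-b) 0) :=
      (by fun_prop : Continuous fun v : ℝ => Complex.exp ((1 - s) * v)).continuousOn.integrableOn_Icc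
    have hint3 : IntegrableOn (fun v : ℝ => ((Int.fract (Real.exp v) : ℝ):ℂ) * Complex.exp (-(s*v))) (Icc (-b) 0) := by
      rw [integrableOn_Icc_iff_integrableOn_Ico] at hint2 ⊢
      exact hint2.congr_fun hcong.symm measurableSet_Ico
    rw [hu, setIntegral_union (by
      rw [Set.disjoint_left]; intro x hx hx2; exact absurd hx.2 (not_le.2 hx2)) measurableSet_Ioi hint3 hint, ← Hf_lap]
    congr 1
    rw [intervalIntegral.integral_of_le (by linarith), ← integral_Icc_eq_integral_Ioc, integral_Icc_eq_integral_Ico,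
      integral_Icc_eq_integral_Ico]
    exact setIntegral_congr_fun measurableSet_Ico hcong
  have hZ : Zs s = s - s * (s - 1) * Hf s := Pool.Agent.H295R2.Zs_eq_Zt hs
  by_cases hs1 : s = 1
  · subst hs1
    rw [hZ]
    simp
  · have h6 : (1 - s) ≠ 0 := sub_ne_zero.2 (Ne.symm hs1)
    have e5 : ∫ v in (-b)..0, Complex.exp ((1 - s) * v) = (1 - Complex.exp (-((1-s) * b))) / (1 - s) := by
      have := integral_exp_mul_complex (a := -b) (b := 0) h6
      rw [this]
      congr 2
      · simp
      · congr 1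
        push_cast
        ring
    have e6 : Complex.exp (-(s * b)) * Complex.exp (-((1-s) * b)) = θ := by
      rw [← Complex.exp_add, hθ]
      push_cast
      congr 1
      ring
    rw [e1, e4, e5, hZ, hθs]
    rw [← e6]
    generalize Complex.exp (-((1-s) * b)) = X
    generalize Complex.exp (-(s * b)) = Y
    field_simp
    ring
end

end Pool.Agent.Zk17.NB
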