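import Pool.Agent.Zk17.NB.A

set_option autoImplicit false

/-!
# Laplace transform of the error function, Hölder's inequality
-/

namespace Pool.Agent.Zk17.NB

open MeasureTheory Set Filter Topology
open Pool.Agent.H295R2 (Nice Lap Hf Zt Zs fz Mx mu)

noncomputable section

variable {ι : Type*}

/-- the real error function on the logarithmic scale -/
def er (t : Finset ι) (θ a : ι → ℝ) (u : ℝ) : ℝ := 1 - ∑ k ∈ t, a k * Int.fract (θ k * Real.exp u)

/-- the error function, cut off at `0` -/
def kf (t : Finset ι) (θ a : ι → ℝ) (u : ℝ) : ℂ := if 0 ≤ u then ((er t θ a u : ℝ) : ℂ) else 0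

def Af (t : Finset ι) (θ a : ι → ℝ) : ℝ := ∑ k ∈ t, a k * θ k

def Ff (t : Finset ι) (θ a : ι → ℝ) (s : ℂ) : ℂ := ∑ k ∈ t, (a k : ℂ) * (θ k : ℂ) ^ s

/-- the entire function `s (s - 1) Lap kf s` -/
def Pf (t : Finset ι) (θ a : ι → ℝ) (s : ℂ) : ℂ := (s - 1) - Af t θ a * s + Ff t θ a s * Zs s

lemma er_abs (t : Finset ι) (θ a : ι → ℝ) (u : ℝ) : |er t θ a u| ≤ 1 + ∑ k ∈ t, |a k| := by
  unfold er
  refine (abs_sub _ _).trans ?_
  rw [abs_one]
  gcongr
  refine (Finset.abs_sum_le_sum_abs _ _).trans (Finset.sum_le_sum fun k _ => ?_)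
  rw [abs_mul]
  have h := Int.fract_nonneg (θ k * Real.exp u)
  have h1 := Int.fract_lt_one (θ k * Real.exp u)
  rw [abs_of_nonneg h]
  nlinarith [abs_nonneg (a k)]

lemma er_meas (t : Finset ι) (θ a : ι → ℝ) : Measurable (er t θ a) := by
  unfold er
  refine measurable_const.sub (Finset.measurable_fun_sum _ fun k _ => ?_)
  exact (measurable_fract.comp (by fun_prop : Measurable fun u : ℝ => θ k * Real.exp u)).const_mul _

lemma kf_nice (t : Finset ι) (θ a : ι → ℝ) : Nice (kf t θ a) (1 + ∑ k ∈ t, |a k|) 0 0 where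
  meas := by
    refine Measurable.ite measurableSet_Ici ?_ measurable_const
    exact Complex.measurable_ofReal.comp (er_meas t θ a)
  bound := by
    intro u
    unfold kf
    split_ifs
    · rw [Complex.norm_real, Real.norm_eq_abs]
      simpa using er_abs t θ a u
    · rw [norm_zero]
      have : 0 ≤ ∑ k ∈ t, |a k| := Finset.sum_nonneg fun k _ => abs_nonneg _
      have h2 := Real.exp_pos (0 * u)
      positivity
  zero := by
    intro u hu
    unfold kf
    rw [if_neg (not_le.2 hu)]

lemma kf_eq (t : Finset ι) (θ a : ι → ℝ) (u : ℝ) :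
    kf t θ a u = Pool.Agent.H295R2.step u - ∑ k ∈ t, (a k : ℂ) * fr0 (θ k) u := by
  unfold kf Pool.Agent.H295R2.step fr0 er
  split_ifs
  · push_cast; rfl
  · simp

lemma kf_lap (t : Finset ι) (θ a : ι → ℝ) (hθ : ∀ k ∈ t, 0 < θ k ∧ θ k ≤ 1) {s : ℂ} (hs : 0 < s.re) :
    s * (s - 1) * Lap (kf t θ a) s = Pf t θ a s := by
  have hs0 : s ≠ 0 := by rintro rfl; simp at hs
  have h1 : Lap (kf t θ a) s = Lap Pool.Agent.H295R2.step s - ∑ k ∈ t, (a k : ℂ) * Lap (fr0 (θ k)) s := by
    have e : ∀ u : ℝ, kf t θ a u * Complex.exp (-(s * u)) = Pool.Agent.H295R2.step u * Complex.exp (-(s * u)) -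
        ∑ k ∈ t, (a k : ℂ) * (fr0 (θ k) u * Complex.exp (-(s * u))) := by
      intro u
      rw [kf_eq, sub_mul, Finset.sum_mul]
      congr 1
      exact Finset.sum_congr rfl fun k _ => by ring
    unfold Lap
    simp_rw [e]
    rw [integral_sub (Pool.Agent.H295R2.step_nice.integrable hs)
      (integrable_finsetSum _ fun k _ => ((fr0_nice (θ k)).integrable hs).const_mul _), integral_finsetSum _
      (fun k _ => ((fr0_nice (θ k)).integrable hs).const_mul _)]
    congr 1
    exact Finset.sum_congr rfl fun k _ => integral_const_mul _ _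
  rw [h1, Pool.Agent.H295R2.Lap_step hs, mul_sub, Finset.mul_sum]
  have h2 : ∀ k ∈ t, s * (s - 1) * ((a k : ℂ) * Lap (fr0 (θ k)) s) =
      (a k : ℂ) * θ k * s - (a k : ℂ) * (θ k : ℂ) ^ s * Zs s := by
    intro k hk
    have := fr0_lap (hθ k hk).1 (hθ k hk).2 hs
    linear_combination (a k : ℂ) * this
  rw [Finset.sum_congr rfl h2, Finset.sum_sub_distrib, ← Finset.sum_mul, ← Finset.sum_mul]
  unfold Pf Af Ff
  push_cast
  field_simp
  ring

lemma Pf_diff (t : Finset ι) (θ a : ι → ℝ) (hθ : ∀ k ∈ t, 0 < θ k) : Differentiable ℂ (Pf t θ a) := by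
  unfold Pf Ff
  have h : Differentiable ℂ (fun s : ℂ => ∑ k ∈ t, (a k : ℂ) * (θ k : ℂ) ^ s) := by
    intro s
    refine DifferentiableAt.fun_sum fun k hk => ?_
    refine DifferentiableAt.const_mul ?_ _
    exact DifferentiableAt.const_cpow differentiableAt_id (Or.inl (by exact_mod_cast (hθ k hk).ne'))
  have h2 := Pool.Agent.H295R2.Zs_differentiable
  intro s
  have h' := h s
  have h2' := h2 s
  fun_prop

/-- the `L^p` integral on the logarithmic scale -/
def Ip (p : ℝ) (t : Finset ι) (θ a : ι → ℝ) : ℝ := ∫ u in Ioi (0:ℝ), Real.exp (-u) * |er t θ a u| ^ p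

lemma cov (g : ℝ → ℝ) : ∫ x in (0:ℝ)..1, g x = ∫ u in Ioi (0:ℝ), Real.exp (-u) * g (Real.exp (-u)) := by
  rw [intervalIntegral.integral_of_le zero_le_one, integral_Ioc_eq_integral_Ioo]
  have himg : (fun u : ℝ => Real.exp (-u)) '' Ioi (0:ℝ) = Ioo 0 1 := by
    ext x
    constructor
    · rintro ⟨v, hv, rfl⟩
      refine ⟨Real.exp_pos _, ?_⟩
      show Real.exp (-v) < 1
      rw [Real.exp_lt_one_iff]
      linarith [mem_Ioi.1 hv]
    · intro hx
      refine ⟨-Real.log x, ?_, ?_⟩
      · rw [mem_Ioi]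
        linarith [Real.log_neg hx.1 hx.2]
      · show Real.exp (-(-Real.log x)) = x
        rw [neg_neg, Real.exp_log hx.1]
  rw [← himg, integral_image_eq_integral_abs_deriv_smul measurableSet_Ioi
    (f' := fun u => Real.exp (-u) * (-1)) (fun x _ => by
      have h1 := ((hasDerivAt_id x).neg).exp
      simpa using h1.hasDerivWithinAt) (fun x _ y _ h => by
      have := Real.exp_injective h
      linarith)]
  refine setIntegral_congr_fun measurableSet_Ioi fun v _ => ?_
  rw [smul_eq_mul, abs_mul, abs_of_pos (Real.exp_pos _)]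
  norm_num

lemma Ip_eq (p : ℝ) (t : Finset ι) (θ a : ι → ℝ) :
    ∫ x in (0:ℝ)..1, |1 - ∑ k ∈ t, a k * Int.fract (θ k / x)| ^ p = Ip p t θ a := by
  rw [cov]
  unfold Ip er
  refine setIntegral_congr_fun measurableSet_Ioi fun v _ => ?_
  have h : ∀ k ∈ t, a k * Int.fract (θ k / Real.exp (-v)) = a k * Int.fract (θ k * Real.exp v) := by
    intro k _
    rw [Real.exp_neg, div_inv_eq_mul]
  rw [Finset.sum_congr rfl h]

/-- Hölder -/
lemma holder {p σ : ℝ} (hp : 1 ≤ p) (hσ : 1 / p < σ) : ∃ C : ℝ, 0 < C ∧ ∀ {ι : Type} (t : Finset ι) (θ a : ι → ℝ)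
    (s : ℂ), σ ≤ s.re → ‖Lap (kf t θ a) s‖ ≤ C * (Ip p t θ a) ^ (1 / p) := by
  have hp0 : 0 < p := by linarith
  have hσ0 : 0 < σ := lt_trans (by positivity) hσ
  -- the norm of the Laplace transform
  have hI : ∀ {ι : Type} (t : Finset ι) (θ a : ι → ℝ) (r : ℝ) (hr : 0 < r) (q : ℝ), 0 < q →
      IntegrableOn (fun u : ℝ => Real.exp (-(r * u)) * |er t θ a u| ^ q) (Ioi 0) := by
    intro ι t θ a r hr q hq
    have h1 : IntegrableOn (fun u : ℝ => Real.exp (-r * u) * (1 + ∑ k ∈ t, |a k|) ^ q) (Ioi 0) :=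
      (integrableOn_exp_mul_Ioi (by linarith : -r < 0) 0).mul_const _
    refine Integrable.mono' h1 ?_ (Eventually.of_forall fun u => ?_)
    · refine (Measurable.mul (by fun_prop) ?_).aestronglyMeasurable
      exact ((er_meas t θ a).abs).pow_const _
    · rw [norm_mul, Real.norm_of_nonneg (Real.exp_pos _).le, Real.norm_of_nonneg (by positivity),
        show -(r * u) = -r * u by ring]
      gcongr
      exact er_abs t θ a u
  have hbase : ∀ {ι : Type} (t : Finset ι) (θ a : ι → ℝ) (s : ℂ), σ ≤ s.re →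
      ‖Lap (kf t θ a) s‖ ≤ ∫ u in Ioi (0:ℝ), |er t θ a u| * Real.exp (-(σ * u)) := by
    intro ι t θ a s hs
    unfold Lap
    rw [← integral_Ici_eq_integral_Ioi, ← integral_indicator measurableSet_Ici]
    refine norm_integral_le_of_norm_le ?_ (Eventually.of_forall fun u => ?_)
    · rw [integrable_indicator_iff measurableSet_Ici, integrableOn_Ici_iff_integrableOn_Ioi]
      have := hI t θ a σ hσ0 1 one_pos
      simpa [mul_comm] using this
    · by_cases hu : 0 ≤ u
      · rw [indicator_of_mem (mem_Ici.2 hu), norm_mul, Pool.Agent.H295R2.norm_exp_neg_mul]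
        unfold kf
        rw [if_pos hu, Complex.norm_real, Real.norm_eq_abs]
        gcongr
      · rw [indicator_of_notMem (by rw [mem_Ici]; exact hu)]
        unfold kf
        rw [if_neg hu]
        simp
  rcases eq_or_lt_of_le hp with h1 | h1
  · -- p = 1
    subst h1
    refine ⟨1, one_pos, fun {ι} t θ a s hs => (hbase t θ a s hs).trans ?_⟩
    rw [one_mul, div_one, Real.rpow_one]
    unfold Ip
    have i1 := hI t θ a 1 one_pos 1 one_pos
    have i2 := hI t θ a σ hσ0 1 one_pos
    refine setIntegral_mono_on ?_ ?_ measurableSet_Ioi fun u hu => ?_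
    · simpa [mul_comm] using i2
    · simpa [mul_comm] using i1
    · rw [Real.rpow_one, mul_comm]
      gcongr
      have hu' : 0 < u := hu
      norm_num at hσ
      nlinarith
  · -- p > 1
    obtain ⟨q, hq⟩ : ∃ q : ℝ, p.HolderConjugate q := ⟨_, Real.HolderConjugate.conjExponent h1⟩
    have hq0 : 0 < q := hq.symm.pos
    set w : ℝ := (σ - 1 / p) * q with hw
    have hw0 : 0 < w := mul_pos (by linarith) hq0
    refine ⟨(1 / w) ^ (1 / q), by positivity, fun {ι} t θ a s hs => (hbase t θ a s hs).trans ?_⟩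
    set μ : Measure ℝ := volume.restrict (Ioi (0:ℝ)) with hμ
    have hf : MemLp (fun u : ℝ => Real.exp (-(u / p)) * |er t θ a u|) (ENNReal.ofReal p) μ := by
      have hm : AEStronglyMeasurable (fun u : ℝ => Real.exp (-(u / p)) * |er t θ a u|) μ :=
        (Measurable.mul (by fun_prop) (er_meas t θ a).abs).aestronglyMeasurable
      rw [← integrable_norm_rpow_iff hm (by simpa using hp0) (by simp)]
      rw [ENNReal.toReal_ofReal hp0.le]
      refine (hI t θ a 1 one_pos p hp0).congr (Eventually.of_forall fun u => ?_)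
      simp only
      rw [Real.norm_of_nonneg (by positivity), Real.mul_rpow (Real.exp_pos _).le (abs_nonneg _), ← Real.exp_mul]
      congr 2
      field_simp
    have hg : MemLp (fun u : ℝ => Real.exp (-((σ - 1 / p) * u))) (ENNReal.ofReal q) μ := by
      have hm : AEStronglyMeasurable (fun u : ℝ => Real.exp (-((σ - 1 / p) * u))) μ :=
        (by fun_prop : Measurable _).aestronglyMeasurable
      rw [← integrable_norm_rpow_iff hm (by simpa using hq0) (by simp)]
      rw [ENNReal.toReal_ofReal hq0.le]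
      have := integrableOn_exp_mul_Ioi (by linarith : -w < 0) 0
      refine Integrable.congr this (Eventually.of_forall fun u => ?_)
      simp only
      rw [Real.norm_of_nonneg (by positivity), ← Real.exp_mul, hw]
      congr 1
      ring
    have key := integral_mul_le_Lp_mul_Lq_of_nonneg hq (μ := μ)
      (Eventually.of_forall fun u => by positivity) (Eventually.of_forall fun u => by positivity) hf hg
    have e1 : ∫ u in Ioi (0:ℝ), |er t θ a u| * Real.exp (-(σ * u)) =
        ∫ u, (Real.exp (-(u / p)) * |er t θ a u|) * Real.exp (-((σ - 1 / p) * u)) ∂μ := by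
      refine integral_congr_ae (Eventually.of_forall fun u => ?_)
      simp only
      have : Real.exp (-(u / p)) * Real.exp (-((σ - 1 / p) * u)) = Real.exp (-(σ * u)) := by
        rw [← Real.exp_add]; congr 1; ring
      linear_combination (-|er t θ a u|) * this
    have e2 : ∫ u, (Real.exp (-(u / p)) * |er t θ a u|) ^ p ∂μ = Ip p t θ a := by
      unfold Ip
      refine integral_congr_ae (Eventually.of_forall fun u => ?_)
      simp only
      rw [Real.mul_rpow (Real.exp_pos _).le (abs_nonneg _), ← Real.exp_mul]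
      congr 2
      field_simp
    have e3 : ∫ u, (Real.exp (-((σ - 1 / p) * u))) ^ q ∂μ = 1 / w := by
      have h3 : ∀ u : ℝ, (Real.exp (-((σ - 1 / p) * u))) ^ q = Real.exp (-w * u) := by
        intro u
        rw [← Real.exp_mul, hw]
        congr 1
        ring
      simp_rw [h3]
      rw [hμ, integral_exp_mul_Ioi (by linarith : -w < 0)]
      simp
    rw [e1]
    rw [e2, e3] at key
    rw [mul_comm]
    exact key

end

end Pool.Agent.Zk17.NB
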