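import Pool.Agent.Zk17.NB.B

set_option autoImplicit false

/-!
# Zero-free boxes from a single good approximation
-/

namespace Pool.Agent.Zk17.NB

open MeasureTheory Set Filter Topology Bornology
open Pool.Agent.H295R2 (Nice Lap Hf Zt Zs fz Mx mu)

noncomputable section

lemma pow_gauss (K : ℕ) : ∃ D : ℝ, 0 < D ∧ ∀ x : ℝ, 0 ≤ x → (1 + x) ^ K * Real.exp (-x ^ 2) ≤ D := by
  refine ⟨(K.factorial : ℝ) * Real.exp (1 + 1 / 4 + 1), by positivity, fun x hx => ?_⟩
  have h1 : (1 + x) ^ K ≤ (K.factorial : ℝ) * Real.exp (1 + x) := by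
    have := Real.pow_div_factorial_le_exp (1 + x) (by linarith) K
    rwa [div_le_iff₀' (by positivity)] at this
  calc (1 + x) ^ K * Real.exp (-x ^ 2) ≤ (K.factorial : ℝ) * Real.exp (1 + x) * Real.exp (-x ^ 2) := by gcongr
    _ = (K.factorial : ℝ) * Real.exp (1 + x - x ^ 2) := by rw [mul_assoc, ← Real.exp_add]; ring_nf
    _ ≤ _ := by
      gcongr
      nlinarith [sq_nonneg (x - 1 / 2)]

/-- three lines with polynomial growth -/
lemma three (K : ℕ) (W : ℝ) : ∃ D : ℝ, 1 ≤ D ∧ ∀ (Q : ℂ → ℂ) (α b β γ M1 M2 : ℝ), Differentiable ℂ Q →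
    α < b → b - α ≤ W → α ≤ β → β ≤ b → 0 < M1 → 0 < M2 →
    (∃ (C0 : ℝ) (K0 : ℕ), ∀ s : ℂ, α ≤ s.re → s.re ≤ b → ‖Q s‖ ≤ C0 * (1 + |s.im|) ^ K0) →
    (∀ s : ℂ, s.re = b → ‖Q s‖ ≤ M1 * (1 + |s.im|) ^ K) →
    (∀ s : ℂ, s.re = α → ‖Q s‖ ≤ M2 * (1 + |s.im|) ^ K) →
    ‖Q ⟨β, γ⟩‖ ≤ D * (1 + |γ|) ^ K * (M2 ^ (1 - (β - α) / (b - α)) * M1 ^ ((β - α) / (b - α))) := by
  obtain ⟨D0, hD0, hD⟩ := pow_gauss K
  refine ⟨Real.exp (W ^ 2) * D0 + 1, by
    have : 0 < Real.exp (W ^ 2) * D0 := by positivity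
    linarith, ?_⟩
  intro Q α b β γ M1 M2 hQ hab hW hβ1 hβ2 hM1 hM2 hgr hr hl
  set s0 : ℂ := ⟨β, γ⟩ with hs0
  set D : ℝ := Real.exp (W ^ 2) * D0 with hDdef
  have hDpos : 0 < D := by positivity
  set G : ℂ → ℂ := fun s => Q s * Complex.exp ((s - s0) ^ 2) with hG
  have hexp : ∀ s : ℂ, α ≤ s.re → s.re ≤ b → ‖Complex.exp ((s - s0) ^ 2)‖ ≤ Real.exp (W ^ 2) * Real.exp (-(|s.im - γ|) ^ 2) := by
    intro s h1 h2
    rw [Complex.norm_exp, ← Real.exp_add]
    apply Real.exp_le_exp.2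
    have e : ((s - s0) ^ 2).re = (s.re - β) ^ 2 - (s.im - γ) ^ 2 := by
      rw [pow_two, Complex.mul_re]
      simp [hs0]
      ring
    rw [e, sq_abs]
    have : (s.re - β) ^ 2 ≤ W ^ 2 := by
      rw [sq_le_sq]
      have hWn : 0 ≤ W := by linarith
      rw [abs_of_nonneg hWn, abs_le]
      constructor <;> linarith
    linarith
  have hpoly : ∀ (k : ℕ) (y : ℝ), (1 + |y|) ^ k ≤ (1 + |γ|) ^ k * (1 + |y - γ|) ^ k := by
    intro k y
    rw [← mul_pow]
    gcongr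
    have h1 : |y| ≤ |γ| + |y - γ| := by
      have := abs_add_le γ (y - γ)
      simpa using this
    nlinarith [abs_nonneg γ, abs_nonneg (y - γ), mul_nonneg (abs_nonneg γ) (abs_nonneg (y - γ))]
  have hedge : ∀ (M : ℝ), 0 < M → ∀ s : ℂ, α ≤ s.re → s.re ≤ b → ‖Q s‖ ≤ M * (1 + |s.im|) ^ K →
      ‖G s‖ ≤ M * ((1 + |γ|) ^ K * D) := by
    intro M hM s h1 h2 h3
    rw [hG]
    simp only
    rw [norm_mul]
    calc ‖Q s‖ * ‖Complex.exp ((s - s0) ^ 2)‖ ≤ (M * ((1 + |γ|) ^ K * (1 + |s.im - γ|) ^ K)) *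
          (Real.exp (W ^ 2) * Real.exp (-(|s.im - γ|) ^ 2)) := by
          gcongr
          · exact h3.trans (by gcongr; exact hpoly K s.im)
          · exact hexp s h1 h2
      _ = M * ((1 + |γ|) ^ K * (Real.exp (W ^ 2) * ((1 + |s.im - γ|) ^ K * Real.exp (-(|s.im - γ|) ^ 2)))) := by ring
      _ ≤ _ := by
        rw [hDdef]
        gcongr
        exact hD _ (abs_nonneg _)
  have hGd : Differentiable ℂ G := by
    rw [hG]
    exact hQ.mul (by fun_prop)
  have hB : BddAbove ((norm ∘ G) '' Complex.HadamardThreeLines.verticalClosedStrip α b) := by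
    obtain ⟨C0, K0, h0⟩ := hgr
    obtain ⟨D1, hD1, hD1'⟩ := pow_gauss K0
    refine ⟨|C0| * ((1 + |γ|) ^ K0 * (Real.exp (W ^ 2) * D1)), ?_⟩
    rintro _ ⟨s, hs, rfl⟩
    have h1 : α ≤ s.re := hs.1
    have h2 : s.re ≤ b := hs.2
    simp only [Function.comp_apply, hG]
    rw [norm_mul]
    calc ‖Q s‖ * ‖Complex.exp ((s - s0) ^ 2)‖ ≤ (|C0| * ((1 + |γ|) ^ K0 * (1 + |s.im - γ|) ^ K0)) *
          (Real.exp (W ^ 2) * Real.exp (-(|s.im - γ|) ^ 2)) := by
          gcongr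
          · refine (h0 s h1 h2).trans ?_
            have hp : (0:ℝ) ≤ (1 + |s.im|) ^ K0 := by positivity
            calc C0 * (1 + |s.im|) ^ K0 ≤ |C0| * (1 + |s.im|) ^ K0 := by
                  gcongr; exact le_abs_self _
              _ ≤ _ := by gcongr; exact hpoly K0 s.im
          · exact hexp s h1 h2
      _ = |C0| * ((1 + |γ|) ^ K0 * (Real.exp (W ^ 2) * ((1 + |s.im - γ|) ^ K0 * Real.exp (-(|s.im - γ|) ^ 2)))) := by ring
      _ ≤ _ := by
        gcongr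
        exact hD1' _ (abs_nonneg _)
  have key := Complex.HadamardThreeLines.norm_le_interp_of_mem_verticalClosedStrip' (f := G) (z := s0)
    (a := M2 * ((1 + |γ|) ^ K * D)) (b := M1 * ((1 + |γ|) ^ K * D)) hab ⟨hβ1, hβ2⟩ hGd.diffContOnCl hB
    (fun s hs => by
      have hs' : s.re = α := hs
      exact hedge M2 hM2 s (by rw [hs']) (by rw [hs']; exact hab.le) (hl s hs'))
    (fun s hs => by
      have hs' : s.re = b := hs
      exact hedge M1 hM1 s (by rw [hs']; exact hab.le) (by rw [hs']) (hr s hs'))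
  have e0 : G s0 = Q s0 := by
    rw [hG]
    simp
  rw [e0] at key
  have hre : s0.re = β := rfl
  rw [hre] at key
  set l : ℝ := (β - α) / (b - α) with hl'
  have e1 : (M2 * ((1 + |γ|) ^ K * D)) ^ (1 - l) * (M1 * ((1 + |γ|) ^ K * D)) ^ l =
      (1 + |γ|) ^ K * D * (M2 ^ (1 - l) * M1 ^ l) := by
    have hX : 0 < (1 + |γ|) ^ K * D := by positivity
    rw [Real.mul_rpow hM2.le hX.le, Real.mul_rpow hM1.le hX.le]
    have : ((1 + |γ|) ^ K * D) ^ (1 - l) * ((1 + |γ|) ^ K * D) ^ l = (1 + |γ|) ^ K * D := by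
      rw [← Real.rpow_add hX]; simp
    calc _ = (((1 + |γ|) ^ K * D) ^ (1 - l) * ((1 + |γ|) ^ K * D) ^ l) * (M2 ^ (1 - l) * M1 ^ l) := by ring
      _ = _ := by rw [this]
  rw [e1] at key
  refine key.trans ?_
  have h9 : 0 ≤ M2 ^ (1 - l) * M1 ^ l := by positivity
  have h10 : (1 + |γ|) ^ K * D ≤ (D + 1) * (1 + |γ|) ^ K := by
    have : 0 < (1 + |γ|) ^ K := by positivity
    nlinarith
  exact mul_le_mul_of_nonneg_right h10 h9

variable {ι : Type*}

/-- Phragmén–Lindelöf for the Dirichlet polynomial `F` to the left of `Re s = 2` -/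
lemma plF (t : Finset ι) (θ a : ι → ℝ) (N : ℝ) (hN : 1 ≤ N) (hθ : ∀ k ∈ t, 1 / N ≤ θ k ∧ θ k ≤ 1) (B : ℝ)
    (hB : ∀ y : ℝ, ‖Ff t θ a (2 + y * Complex.I)‖ ≤ B * (1 + |y|)) (z : ℂ) (hz : 0 ≤ z.re) :
    ‖Ff t θ a (2 - z)‖ ≤ 2 * B * ‖z + 1‖ * N ^ z.re := by
  have hN0 : 0 < N := by linarith
  have hθ0 : ∀ k ∈ t, 0 < θ k := fun k hk => lt_of_lt_of_le (by positivity) (hθ k hk).1
  have hne : ∀ w : ℂ, 0 ≤ w.re → w + 1 ≠ 0 := by
    intro w hw h
    have := congrArg Complex.re h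
    simp at this
    linarith
  have hNc : ((N:ℝ):ℂ) ≠ 0 := by exact_mod_cast hN0.ne'
  set G : ℂ → ℂ := fun w => Ff t θ a (2 - w) * (N:ℂ) ^ (-w) / (w + 1) with hG
  have hFd : Differentiable ℂ (Ff t θ a) := by
    unfold Ff
    intro s
    refine DifferentiableAt.fun_sum fun k hk => ?_
    refine DifferentiableAt.const_mul ?_ _
    exact DifferentiableAt.const_cpow differentiableAt_id (Or.inl (by exact_mod_cast (hθ0 k hk).ne'))
  have hd : DiffContOnCl ℂ G {w | 0 < w.re} := by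
    apply DifferentiableOn.diffContOnCl
    rw [Complex.closure_setOf_lt_re]
    intro w hw
    refine DifferentiableAt.differentiableWithinAt ?_
    refine DifferentiableAt.div (DifferentiableAt.mul ?_ ?_) (by fun_prop) (hne w hw)
    · exact (hFd _).comp w (by fun_prop)
    · exact DifferentiableAt.const_cpow (by fun_prop) (Or.inl hNc)
  have hnorm : ∀ w : ℂ, 0 ≤ w.re → ‖G w‖ ≤ ∑ k ∈ t, |a k| := by
    intro w hw
    rw [hG]
    simp only
    rw [norm_div, norm_mul]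
    have h1 : ‖Ff t θ a (2 - w)‖ ≤ (∑ k ∈ t, |a k|) * N ^ w.re := by
      unfold Ff
      rw [Finset.sum_mul]
      refine norm_sum_le_of_le _ fun k hk => ?_
      rw [norm_mul, Complex.norm_real, Real.norm_eq_abs, Complex.norm_cpow_eq_rpow_re_of_pos (hθ0 k hk)]
      gcongr
      have e : ((2:ℂ) - w).re = 2 - w.re := by simp
      rw [e, Real.rpow_sub (hθ0 k hk)]
      have h2 : (θ k) ^ (2:ℝ) ≤ 1 := Real.rpow_le_one (hθ0 k hk).le (hθ k hk).2 (by norm_num)
      have h3 : 0 < θ k ^ w.re := Real.rpow_pos_of_pos (hθ0 k hk) _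
      calc θ k ^ (2:ℝ) / θ k ^ w.re ≤ 1 / θ k ^ w.re := by gcongr
        _ = (1 / θ k) ^ w.re := by rw [Real.div_rpow zero_le_one (hθ0 k hk).le, Real.one_rpow]
        _ ≤ N ^ w.re := by
          apply Real.rpow_le_rpow (by have := hθ0 k hk; positivity) _ hw
          rw [div_le_iff₀ (hθ0 k hk)]
          have := (hθ k hk).1
          rw [div_le_iff₀ hN0] at this
          linarith
    have h2 : ‖(N:ℂ) ^ (-w)‖ = N ^ (-w.re) := by
      rw [Complex.norm_cpow_eq_rpow_re_of_pos hN0]; simp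
    have h3 : 1 ≤ ‖w + 1‖ := by
      have := Complex.abs_re_le_norm (w + 1)
      simp only [Complex.add_re, Complex.one_re] at this
      rw [abs_of_nonneg (by linarith)] at this
      linarith
    have hS : 0 ≤ ∑ k ∈ t, |a k| := Finset.sum_nonneg fun k _ => abs_nonneg _
    rw [div_le_iff₀ (by linarith), h2]
    have h4 : N ^ w.re * N ^ (-w.re) = 1 := by rw [← Real.rpow_add hN0]; simp
    calc ‖Ff t θ a (2 - w)‖ * N ^ (-w.re) ≤ ((∑ k ∈ t, |a k|) * N ^ w.re) * N ^ (-w.re) := by gcongr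
      _ = ∑ k ∈ t, |a k| := by rw [mul_assoc, h4, mul_one]
      _ ≤ _ := by nlinarith
  have hB0 : 0 ≤ B := by
    have := (norm_nonneg _).trans (hB 0)
    simpa using this
  have key : ‖G z‖ ≤ 2 * B := by
    refine PhragmenLindelof.right_half_plane_of_bounded_on_real hd ⟨1, by norm_num, 0, ?_⟩ ?_ ?_ hz
    · refine Asymptotics.IsBigO.of_bound (∑ k ∈ t, |a k|) ?_
      rw [eventually_inf_principal]
      refine Eventually.of_forall fun w hw => ?_
      simp only [zero_mul, Real.exp_zero, norm_one, mul_one]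
      exact hnorm w (le_of_lt hw)
    · refine isBoundedUnder_of_eventually_le (a := ∑ k ∈ t, |a k|) ?_
      filter_upwards [eventually_ge_atTop 0] with x hx
      exact hnorm x (by simpa using hx)
    · intro y
      rw [hG]
      simp only
      rw [norm_div, norm_mul]
      have h1 : ‖(N:ℂ) ^ (-(y * Complex.I))‖ = 1 := by
        rw [Complex.norm_cpow_eq_rpow_re_of_pos hN0]; simp
      have h2 : ‖Ff t θ a (2 - y * Complex.I)‖ ≤ B * (1 + |y|) := by
        have := hB (-y)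
        rw [abs_neg] at this
        convert this using 2
        push_cast
        ring_nf
      have h3 : (1 + |y|) ≤ 2 * ‖(y * Complex.I + 1 : ℂ)‖ := by
        have h4 := Complex.abs_re_le_norm (y * Complex.I + 1)
        have h5 := Complex.abs_im_le_norm (y * Complex.I + 1)
        simp at h4 h5
        linarith
      have h4 : 0 < ‖(y * Complex.I + 1 : ℂ)‖ := by
        have := abs_nonneg y
        linarith
      rw [h1, mul_one, div_le_iff₀ h4]
      nlinarith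
  have e : Ff t θ a (2 - z) = G z * (z + 1) * (N:ℂ) ^ z := by
    rw [hG]
    simp only
    rw [div_mul_cancel₀ _ (hne z hz), mul_assoc, ← Complex.cpow_add _ _ hNc]
    simp
  rw [e, norm_mul, norm_mul, Complex.norm_cpow_eq_rpow_re_of_pos hN0]
  gcongr

end

end Pool.Agent.Zk17.NB
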