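import Pool.Agent.Zk17.NB.C
import Pool.Agent.H437R2.A1

set_option autoImplicit false

/-!
# Zero-free boxes from a single good approximation, second part
-/

namespace Pool.Agent.Zk17.NB

open MeasureTheory Set Filter Topology Bornology
open Pool.Agent.H295R2 (Nice Lap Hf Zt Zs fz Mx mu)

noncomputable section

/-- zeros are away from the real axis -/
lemma low_im : ∃ g : ℝ, 0 < g ∧ g ≤ 1 ∧ ∀ ρ : ℂ, Zs ρ = 0 → 1 / 2 ≤ ρ.re → g ≤ |ρ.im| := by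
  set Z : Set ℂ := {s : ℂ | Zs s = 0} ∩ (Icc (1/2 : ℝ) 1 ×ℂ Icc (-1 : ℝ) 1) with hZ
  have hcpt : IsCompact Z := by
    have h1 : IsClosed {s : ℂ | Zs s = 0} :=
      isClosed_eq Pool.Agent.H295R2.Zs_differentiable.continuous continuous_const
    rw [hZ, inter_comm]
    exact (isCompact_Icc.reProdIm isCompact_Icc).inter_right h1
  have him : ∀ ρ ∈ Z, ρ.im ≠ 0 := by
    intro ρ hρ
    have h2 := hρ.2
    rw [Complex.mem_reProdIm] at h2
    exact Pool.Agent.H437R2.z1_zero_im (by linarith [h2.1.1]) hρ.1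
  have hre : ∀ ρ : ℂ, Zs ρ = 0 → 1 / 2 ≤ ρ.re → ρ.re < 1 := by
    intro ρ h0 _
    by_contra h
    exact Pool.Agent.H295R2.Zs_ne_zero_of_one_le (not_lt.1 h) h0
  rcases Z.eq_empty_or_nonempty with h | h
  · refine ⟨1, one_pos, le_rfl, fun ρ h0 h1 => ?_⟩
    by_contra h2
    push Not at h2
    have : ρ ∈ Z := by
      refine ⟨h0, ?_⟩
      rw [Complex.mem_reProdIm]
      exact ⟨⟨h1, (hre ρ h0 h1).le⟩, (abs_lt.1 h2).1.le, (abs_lt.1 h2).2.le⟩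
    rw [h] at this
    exact this
  · obtain ⟨ρ0, hρ0, hmin⟩ := hcpt.exists_isMinOn h (f := fun s : ℂ => |s.im|) (by fun_prop)
    refine ⟨min |ρ0.im| 1, lt_min (abs_pos.2 (him ρ0 hρ0)) one_pos, min_le_right _ _, fun ρ h0 h1 => ?_⟩
    rcases le_or_gt 1 |ρ.im| with h2 | h2
    · exact (min_le_right _ _).trans h2
    · refine (min_le_left _ _).trans (hmin ?_)
      refine ⟨h0, ?_⟩
      rw [Complex.mem_reProdIm]
      exact ⟨⟨h1, (hre ρ h0 h1).le⟩, (abs_lt.1 h2).1.le, (abs_lt.1 h2).2.le⟩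

/-- at a zero the entire function `P` is not small -/
lemma P_low : ∃ c : ℝ, 0 < c ∧ ∀ {ι : Type} (t : Finset ι) (θ a : ι → ℝ) (ρ : ℂ), Zs ρ = 0 → 1 / 2 ≤ ρ.re →
    c * (1 + |1 - Af t θ a|) ≤ ‖Pf t θ a ρ‖ := by
  obtain ⟨g, hg0, hg1, hg⟩ := low_im
  refine ⟨g / 6, by positivity, fun {ι} t θ a ρ h0 h1 => ?_⟩
  have hγ := hg ρ h0 h1
  have hre1 : ρ.re < 1 := by
    by_contra h
    exact Pool.Agent.H295R2.Zs_ne_zero_of_one_le (not_lt.1 h) h0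
  set w : ℝ := 1 - Af t θ a with hw
  have e : Pf t θ a ρ = ρ * w - 1 := by
    unfold Pf
    rw [h0, hw]
    push_cast
    ring
  rw [e]
  have a1 : g * |w| ≤ ‖ρ * (w:ℂ) - 1‖ := by
    have := Complex.abs_im_le_norm (ρ * (w:ℂ) - 1)
    have e2 : (ρ * (w:ℂ) - 1).im = ρ.im * w := by simp
    rw [e2, abs_mul] at this
    refine le_trans ?_ this
    gcongr
  have a2 : g / 3 ≤ ‖ρ * (w:ℂ) - 1‖ := by
    have h3 : |ρ.im| ≤ ‖ρ * (w:ℂ) - 1‖ * ‖ρ‖ := by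
      have h4 := Complex.abs_im_le_norm ((ρ * (w:ℂ) - 1) * (starRingEnd ℂ) ρ)
      have e3 : ((ρ * (w:ℂ) - 1) * (starRingEnd ℂ) ρ).im = ρ.im := by
        simp [Complex.mul_im]
        ring
      rw [e3, norm_mul, Complex.norm_conj] at h4
      exact h4
    have h5 : ‖ρ‖ ≤ 1 + |ρ.im| := by
      have := Complex.norm_le_abs_re_add_abs_im ρ
      rw [abs_of_nonneg (by linarith : 0 ≤ ρ.re)] at this
      linarith
    by_contra hcon
    push Not at hcon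
    have h6 : ‖ρ * (w:ℂ) - 1‖ * ‖ρ‖ ≤ g / 3 * (1 + |ρ.im|) :=
      mul_le_mul hcon.le h5 (norm_nonneg _) (by positivity)
    have h7 : 0 < |ρ.im| := lt_of_lt_of_le hg0 hγ
    nlinarith
  nlinarith [abs_nonneg w]

lemma Zs_growth (X : ℝ) : ∃ (C : ℝ) (K : ℕ), 1 ≤ C ∧ ∀ s : ℂ, -X ≤ s.re → s.re ≤ 3 → ‖Zs s‖ ≤ C * (1 + |s.im|) ^ K := by
  obtain ⟨C, K, hC, h⟩ := Pool.Agent.H448R2.GC.zeta_one_growth X
  refine ⟨max C 1, K, le_max_right _ _, fun s h1 h2 => ?_⟩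
  have h3 := h s h1 h2
  have e : Function.update (fun w : ℂ => (w - 1) * riemannZeta w) 1 1 s = Zs s := by
    by_cases hs : s = 1
    · rw [hs, Function.update_self]
      unfold Zs
      rw [riemannZeta₁_one]
    · rw [Function.update_of_ne hs, Pool.Agent.H295R2.Zs_eq hs]
  rw [e] at h3
  refine h3.trans ?_
  gcongr
  exact le_max_left _ _

/-- bound of `F` on the line `Re s = 2` -/
lemma F_two {C2 δ : ℝ} {ι : Type} (t : Finset ι) (θ a : ι → ℝ) (hθ : ∀ k ∈ t, 0 < θ k ∧ θ k ≤ 1)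
    (hC2 : 0 ≤ C2) (hδ0 : 0 ≤ δ) (hδ : δ ≤ 1) (hL : ∀ s : ℂ, 2 ≤ s.re → ‖Lap (kf t θ a) s‖ ≤ C2 * δ) (y : ℝ) :
    ‖Ff t θ a (2 + y * Complex.I)‖ ≤ (3 * (2 * C2 + 3)) * (1 + |1 - Af t θ a|) * (1 + |y|) := by
  set s : ℂ := 2 + y * Complex.I with hs
  have hre : s.re = 2 := by rw [hs]; simp
  have him : s.im = y := by rw [hs]; simp
  have hs1 : s ≠ 1 := by
    intro h
    rw [h] at hre
    norm_num at hre
  have hs1' : s - 1 ≠ 0 := sub_ne_zero.2 hs1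
  set B' : ℝ := 1 + |1 - Af t θ a| with hB'
  have hB1 : 1 ≤ B' := by rw [hB']; linarith [abs_nonneg (1 - Af t θ a)]
  have hA : |Af t θ a| ≤ B' := by
    have := abs_sub (1 : ℝ) (1 - Af t θ a)
    rw [abs_one] at this
    simpa using this
  obtain ⟨hz0, hz⟩ := SG.zeta_inv_bound s (by rw [hre])
  have hP := kf_lap t θ a hθ (s := s) (by rw [hre]; norm_num)
  have hsn : ‖s‖ ≤ ‖s - 1‖ + 1 := by
    have := norm_add_le (s - 1) 1
    simpa using this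
  have hsn1 : 1 ≤ ‖s - 1‖ := by
    have := Complex.abs_re_le_norm (s - 1)
    rw [Complex.sub_re, hre] at this
    norm_num at this
    exact this
  have hsy : ‖s‖ ≤ 2 * (1 + |y|) := by
    have := Complex.norm_le_abs_re_add_abs_im s
    rw [hre, him] at this
    norm_num at this
    linarith [abs_nonneg y]
  have e : Ff t θ a s * (s - 1) = (s * (s - 1) * Lap (kf t θ a) s - (s - 1) + Af t θ a * s) * (riemannZeta s)⁻¹ := by
    rw [hP]
    unfold Pf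
    rw [← Pool.Agent.H295R2.Zs_eq hs1]
    field_simp
    ring
  have h1 : ‖Ff t θ a s‖ * ‖s - 1‖ ≤ (‖s‖ * ‖s - 1‖ * (C2 * δ) + ‖s - 1‖ + B' * ‖s‖) * 3 := by
    rw [← norm_mul, e, norm_mul]
    have h2 : ‖s * (s - 1) * Lap (kf t θ a) s - (s - 1) + Af t θ a * s‖ ≤
        ‖s‖ * ‖s - 1‖ * (C2 * δ) + ‖s - 1‖ + B' * ‖s‖ := by
      refine (norm_add_le _ _).trans ?_
      refine add_le_add ((norm_sub_le _ _).trans ?_) ?_
      · rw [norm_mul, norm_mul]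
        gcongr
        exact hL s (by rw [hre])
      · rw [norm_mul, Complex.norm_real, Real.norm_eq_abs]
        gcongr
    gcongr
  have h3 : 0 < ‖s - 1‖ := by linarith
  have h4 : ‖s‖ ≤ 2 * ‖s - 1‖ := by linarith
  have hCδ : C2 * δ ≤ C2 := by nlinarith
  have hCδ0 : 0 ≤ C2 * δ := by positivity
  have h5 : ‖Ff t θ a s‖ * ‖s - 1‖ ≤ (3 * (2 * C2 + 3) * B' * (1 + |y|)) * ‖s - 1‖ := by
    refine h1.trans ?_
    have hy := abs_nonneg y
    calc (‖s‖ * ‖s - 1‖ * (C2 * δ) + ‖s - 1‖ + B' * ‖s‖) * 3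
        ≤ ((2 * (1 + |y|)) * ‖s - 1‖ * C2 + ‖s - 1‖ + B' * (2 * ‖s - 1‖)) * 3 := by gcongr
      _ = 3 * (2 * C2 * (1 + |y|) + 1 + 2 * B') * ‖s - 1‖ := by ring
      _ ≤ (3 * (2 * C2 + 3) * B' * (1 + |y|)) * ‖s - 1‖ := by
        refine mul_le_mul_of_nonneg_right ?_ h3.le
        have h6 : 2 * C2 * (1 + |y|) ≤ 2 * C2 * B' * (1 + |y|) := by
          have : 0 ≤ 2 * C2 * (1 + |y|) := by positivity
          nlinarith
        have h7 : 1 + 2 * B' ≤ 3 * B' * (1 + |y|) := by nlinarith [mul_nonneg (by linarith : 0 ≤ B') hy]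
        nlinarith
  exact le_of_mul_le_mul_right h5 h3

end

end Pool.Agent.Zk17.NB
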