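import Pool.Agent.Zk17.NB.C2

set_option autoImplicit false

/-!
# Zero-free boxes from a single good approximation, third part
-/

namespace Pool.Agent.Zk17.NB

open MeasureTheory Set Filter Topology Bornology
open Pool.Agent.H295R2 (Nice Lap Hf Zt Zs fz Mx mu)

noncomputable section

/-- the certificate, for small `ε` -/
lemma cert_aux {p c ε : ℝ} (hp : 1 ≤ p) (hc : 0 < c) (hε : 0 < ε) (hε1 : ε ≤ 1) :
    ∃ η : ℝ, 0 < η ∧ ∀ᶠ N : ℝ in atTop, ∀ {ι : Type} (t : Finset ι) (θ a : ι → ℝ),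
      (∀ k ∈ t, 1 / N ≤ θ k ∧ θ k ≤ 1) → (Ip p t θ a) ^ (1 / p) ≤ N ^ (-c) →
      ∀ ρ : ℂ, Zs ρ = 0 → 1 / 2 ≤ ρ.re → 1 / p - c + ε ≤ ρ.re → |ρ.im| ≤ N ^ η → False := by
  have hp0 : 0 < p := by linarith
  have hp1 : 1 / p ≤ 1 := by rw [div_le_one hp0]; exact hp
  have hpp : 0 < 1 / p := by positivity
  obtain ⟨c0, hc0, hlow⟩ := P_low
  set b : ℝ := 1 / p + ε / 3 with hb
  obtain ⟨C1, hC1, hH1⟩ := holder (σ := b) hp (by rw [hb]; linarith)
  obtain ⟨C2, hC2, hH2⟩ := holder (σ := 2) hp (by linarith)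
  set H : ℝ := 3 * c * (c + 2) / ε with hH
  have hcc : c ≤ H := by
    rw [hH, le_div_iff₀ hε]
    nlinarith
  have hH0 : 0 < H := by linarith
  set α : ℝ := b - H with hα
  obtain ⟨CZ, KZ, hCZ, hZ⟩ := Zs_growth (|α|)
  set K : ℕ := KZ + 2 with hK
  obtain ⟨D, hD1, hthree⟩ := three K H
  set M1c : ℝ := 4 * C1 with hM1c
  set C3 : ℝ := (|α| + 2) + (|α| + 2) + (2 * (3 * (2 * C2 + 3))) * (|α| + 4) * CZ with hC3
  have hC3pos : 1 ≤ C3 := by
    have h1 : 0 ≤ (2 * (3 * (2 * C2 + 3))) * (|α| + 4) * CZ := by positivity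
    have := abs_nonneg α
    rw [hC3]
    linarith
  have hKpos : (0:ℝ) < K := by rw [hK]; positivity
  refine ⟨min (c / 4) (ε / (6 * K)), lt_min (by positivity) (by positivity), ?_⟩
  set η : ℝ := min (c / 4) (ε / (6 * K)) with hη
  have hη1 : η ≤ c / 4 := min_le_left _ _
  have hη2 : K * η ≤ ε / 6 := by
    have : η ≤ ε / (6 * K) := min_le_right _ _
    rw [le_div_iff₀ (by positivity)] at this
    linarith
  have hη0 : 0 < η := lt_min (by positivity) (by positivity)
  have ev1 : ∀ᶠ N : ℝ in atTop, 4 * C1 * N ^ (-(c / 2)) < c0 := by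
    have h1 : Tendsto (fun N : ℝ => 4 * C1 * N ^ (-(c / 2))) atTop (𝓝 (4 * C1 * 0)) :=
      (tendsto_rpow_neg_atTop (by positivity : 0 < c / 2)).const_mul _
    rw [mul_zero] at h1
    exact h1.eventually (gt_mem_nhds hc0)
  set C4 : ℝ := D * 2 ^ K * (C3 * max M1c 1) with hC4
  have ev2 : ∀ᶠ N : ℝ in atTop, C4 * N ^ (-(ε / 6)) < c0 := by
    have h1 : Tendsto (fun N : ℝ => C4 * N ^ (-(ε / 6))) atTop (𝓝 (C4 * 0)) :=
      (tendsto_rpow_neg_atTop (by positivity : 0 < ε / 6)).const_mul _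
    rw [mul_zero] at h1
    exact h1.eventually (gt_mem_nhds hc0)
  filter_upwards [ev1, ev2, eventually_ge_atTop 1] with N h1 h2 hN1
  intro ι t θ a hθ hδN ρ hρ hρ2 hρre hρim
  have hN0 : 0 < N := by linarith
  have hθ' : ∀ k ∈ t, 0 < θ k ∧ θ k ≤ 1 := fun k hk => ⟨lt_of_lt_of_le (by positivity) (hθ k hk).1, (hθ k hk).2⟩
  set δ : ℝ := (Ip p t θ a) ^ (1 / p) with hδ
  have hI0 : 0 ≤ Ip p t θ a := by
    unfold Ip
    exact setIntegral_nonneg measurableSet_Ioi fun u _ => by positivity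
  have hδ0 : 0 ≤ δ := Real.rpow_nonneg hI0 _
  have hδ1 : δ ≤ 1 := hδN.trans (Real.rpow_le_one_of_one_le_of_nonpos hN1 (by linarith))
  set B' : ℝ := 1 + |1 - Af t θ a| with hB'
  have hB1 : 1 ≤ B' := by rw [hB']; linarith [abs_nonneg (1 - Af t θ a)]
  have hA : |Af t θ a| ≤ B' := by
    have := abs_sub (1 : ℝ) (1 - Af t θ a)
    rw [abs_one] at this
    simpa using this
  have hPlow := hlow t θ a ρ hρ hρ2
  have hρ1 : ρ.re < 1 := by
    by_contra h
    exact Pool.Agent.H295R2.Zs_ne_zero_of_one_le (not_lt.1 h) hρ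
  have hρim1 : 1 + |ρ.im| ≤ 2 * N ^ η := by
    have : 1 ≤ N ^ η := Real.one_le_rpow hN1 hη0.le
    linarith
  by_cases hcase : b ≤ ρ.re
  · -- direct
    have h3 : ‖Pf t θ a ρ‖ ≤ (1 + |ρ.im|) * (1 + |ρ.im|) * (C1 * N ^ (-c)) := by
      rw [← kf_lap t θ a hθ' (by linarith : 0 < ρ.re), norm_mul, norm_mul]
      have a1 : ‖ρ‖ ≤ 1 + |ρ.im| := by
        have := Complex.norm_le_abs_re_add_abs_im ρ
        rw [abs_of_nonneg (by linarith : 0 ≤ ρ.re)] at this
        linarith
      have a2 : ‖ρ - 1‖ ≤ 1 + |ρ.im| := by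
        have := Complex.norm_le_abs_re_add_abs_im (ρ - 1)
        simp only [Complex.sub_re, Complex.one_re, Complex.sub_im, Complex.one_im, sub_zero] at this
        rw [abs_of_nonpos (by linarith : ρ.re - 1 ≤ 0)] at this
        linarith
      have a3 : ‖Lap (kf t θ a) ρ‖ ≤ C1 * N ^ (-c) := (hH1 t θ a ρ hcase).trans (by gcongr)
      gcongr
    have h4 : c0 ≤ (1 + |ρ.im|) * (1 + |ρ.im|) * (C1 * N ^ (-c)) := by
      refine le_trans ?_ (hPlow.trans h3)
      nlinarith
    have h5 : (1 + |ρ.im|) * (1 + |ρ.im|) * (C1 * N ^ (-c)) ≤ 4 * C1 * N ^ (-(c / 2)) := by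
      calc (1 + |ρ.im|) * (1 + |ρ.im|) * (C1 * N ^ (-c)) ≤ (2 * N ^ η) * (2 * N ^ η) * (C1 * N ^ (-c)) := by
            gcongr
        _ = 4 * C1 * (N ^ η * N ^ η * N ^ (-c)) := by ring
        _ = 4 * C1 * N ^ (η + η + -c) := by rw [← Real.rpow_add hN0, ← Real.rpow_add hN0]
        _ ≤ 4 * C1 * N ^ (-(c / 2)) := by
          have : N ^ (η + η + -c) ≤ N ^ (-(c / 2)) := Real.rpow_le_rpow_of_exponent_le hN1 (by linarith)
          gcongr
    linarith
  · push Not at hcase
    have hle : b - ρ.re ≤ c - 2 * ε / 3 := by rw [hb]; linarith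
    have hαβ : α ≤ ρ.re := by rw [hα]; linarith
    have hN2 : 0 < N ^ (-c) := by positivity
    have hαb : b - α = H := by rw [hα]; ring
    -- right edge
    have hr : ∀ s : ℂ, s.re = b → ‖Pf t θ a s‖ ≤ (M1c * N ^ (-c)) * (1 + |s.im|) ^ K := by
      intro s hs
      have hs0 : 0 < s.re := by rw [hs, hb]; positivity
      rw [← kf_lap t θ a hθ' hs0, norm_mul, norm_mul]
      have hb2 : b ≤ 2 := by rw [hb]; linarith
      have a1 : ‖s‖ ≤ 2 * (1 + |s.im|) := by
        have := Complex.norm_le_abs_re_add_abs_im s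
        rw [hs, abs_of_nonneg (by linarith)] at this
        linarith [abs_nonneg s.im]
      have a2 : ‖s - 1‖ ≤ 2 * (1 + |s.im|) := by
        have := Complex.norm_le_abs_re_add_abs_im (s - 1)
        simp only [Complex.sub_re, Complex.one_re, Complex.sub_im, Complex.one_im, sub_zero, hs] at this
        have h7 : |b - 1| ≤ 1 := by rw [abs_le]; constructor <;> linarith
        linarith [abs_nonneg s.im]
      have a3 : ‖Lap (kf t θ a) s‖ ≤ C1 * N ^ (-c) := (hH1 t θ a s hs.ge).trans (by gcongr)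
      have a4 : (1 + |s.im|) ^ 2 ≤ (1 + |s.im|) ^ K :=
        pow_le_pow_right₀ (by linarith [abs_nonneg s.im]) (by omega)
      calc ‖s‖ * ‖s - 1‖ * ‖Lap (kf t θ a) s‖ ≤ (2 * (1 + |s.im|)) * (2 * (1 + |s.im|)) * (C1 * N ^ (-c)) := by gcongr
        _ = (M1c * N ^ (-c)) * (1 + |s.im|) ^ 2 := by rw [hM1c]; ring
        _ ≤ _ := by gcongr
    -- bound to the left of `Re s = 2`
    have hF2 := F_two t θ a hθ' hC2.le hδ0 hδ1 (hH2 t θ a)
    have hgen : ∀ s : ℂ, α ≤ s.re → s.re ≤ b → ‖Pf t θ a s‖ ≤ (C3 * B' * N ^ (2 - s.re)) * (1 + |s.im|) ^ K := by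
      intro s hs1 hs2
      have hb2 : b ≤ 2 := by rw [hb]; linarith
      have hre : |s.re| ≤ |α| + 2 := by
        rw [abs_le]
        constructor
        · linarith [neg_abs_le α, abs_nonneg α]
        · linarith [abs_nonneg α]
      have hF : ‖Ff t θ a s‖ ≤ 2 * ((3 * (2 * C2 + 3)) * B') * ‖(2 - s) + 1‖ * N ^ (2 - s.re) := by
        have := plF t θ a N hN1 hθ ((3 * (2 * C2 + 3)) * B') (fun y => hF2 y) (2 - s) (by simp; linarith)
        simpa using this
      have him0 := abs_nonneg s.im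
      have a1 : ‖(2 - s) + 1‖ ≤ (|α| + 4) * (1 + |s.im|) := by
        have := Complex.norm_le_abs_re_add_abs_im ((2 - s) + 1)
        have e1 : ((2 - s) + 1).re = 3 - s.re := by simp; ring
        have e2 : |((2 - s) + 1).im| = |s.im| := by simp
        rw [e1, e2] at this
        have h7 : |3 - s.re| ≤ |α| + 3 := by
          rw [abs_le]
          constructor
          · linarith [abs_nonneg α]
          · linarith [neg_abs_le α]
        nlinarith [abs_nonneg α]
      have a2 : ‖Zs s‖ ≤ CZ * (1 + |s.im|) ^ KZ := hZ s (by linarith [neg_abs_le α]) (by linarith)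
      have a3 : ‖s‖ ≤ (|α| + 2) * (1 + |s.im|) := by
        have := Complex.norm_le_abs_re_add_abs_im s
        nlinarith [abs_nonneg α]
      have a4 : ‖s - 1‖ ≤ (|α| + 2) * (1 + |s.im|) := by
        have := Complex.norm_le_abs_re_add_abs_im (s - 1)
        simp only [Complex.sub_re, Complex.one_re, Complex.sub_im, Complex.one_im, sub_zero] at this
        have h7 : |s.re - 1| ≤ |α| + 2 := by
          rw [abs_le]
          constructor
          · linarith [neg_abs_le α]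
          · linarith [abs_nonneg α]
        nlinarith [abs_nonneg α]
      have hNre : 1 ≤ N ^ (2 - s.re) := Real.one_le_rpow hN1 (by linarith)
      have hone : 1 ≤ 1 + |s.im| := by linarith
      have hp1' : (1 + |s.im|) ≤ (1 + |s.im|) ^ K := le_self_pow₀ hone (by omega)
      have hp2 : (1 + |s.im|) ^ KZ * (1 + |s.im|) ≤ (1 + |s.im|) ^ K := by
        rw [← pow_succ]
        exact pow_le_pow_right₀ hone (by omega)
      have hB0 : 0 ≤ B' := by linarith
      have hα0 := abs_nonneg α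
      have q1 : ‖s - 1‖ ≤ (|α| + 2) * (B' * N ^ (2 - s.re) * (1 + |s.im|) ^ K) := by
        refine a4.trans ?_
        gcongr
        calc 1 + |s.im| = 1 * 1 * (1 + |s.im|) := by ring
          _ ≤ B' * N ^ (2 - s.re) * (1 + |s.im|) ^ K := by gcongr
      have q2 : |Af t θ a| * ‖s‖ ≤ (|α| + 2) * (B' * N ^ (2 - s.re) * (1 + |s.im|) ^ K) := by
        calc |Af t θ a| * ‖s‖ ≤ B' * ((|α| + 2) * (1 + |s.im|)) := by gcongr
          _ = (|α| + 2) * (B' * 1 * (1 + |s.im|)) := by ring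
          _ ≤ _ := by gcongr
      have q3 : ‖Ff t θ a s‖ * ‖Zs s‖ ≤ ((2 * (3 * (2 * C2 + 3))) * (|α| + 4) * CZ) *
          (B' * N ^ (2 - s.re) * (1 + |s.im|) ^ K) := by
        calc ‖Ff t θ a s‖ * ‖Zs s‖ ≤ (2 * ((3 * (2 * C2 + 3)) * B') * ((|α| + 4) * (1 + |s.im|)) * N ^ (2 - s.re)) *
              (CZ * (1 + |s.im|) ^ KZ) := by
              refine mul_le_mul (hF.trans ?_) a2 (norm_nonneg _) (by positivity)
              gcongr
          _ = ((2 * (3 * (2 * C2 + 3))) * (|α| + 4) * CZ) * (B' * N ^ (2 - s.re) * ((1 + |s.im|) ^ KZ * (1 + |s.im|))) := by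
              ring
          _ ≤ _ := by gcongr
      have q0 : ‖Pf t θ a s‖ ≤ ‖s - 1‖ + |Af t θ a| * ‖s‖ + ‖Ff t θ a s‖ * ‖Zs s‖ := by
        unfold Pf
        refine (norm_add_le _ _).trans ?_
        rw [norm_mul (Ff t θ a s)]
        gcongr
        refine (norm_sub_le _ _).trans ?_
        rw [norm_mul, Complex.norm_real, Real.norm_eq_abs]
      refine q0.trans ((add_le_add (add_le_add q1 q2) q3).trans (le_of_eq ?_))
      rw [hC3]
      ring
    have hM2 : 0 < C3 * B' * N ^ (2 - α) := by positivity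
    have hl : ∀ s : ℂ, s.re = α → ‖Pf t θ a s‖ ≤ (C3 * B' * N ^ (2 - α)) * (1 + |s.im|) ^ K := by
      intro s hs
      have := hgen s hs.ge (by rw [hs]; linarith)
      rwa [hs] at this
    have hgr : ∃ (C0 : ℝ) (K0 : ℕ), ∀ s : ℂ, α ≤ s.re → s.re ≤ b → ‖Pf t θ a s‖ ≤ C0 * (1 + |s.im|) ^ K0 := by
      refine ⟨C3 * B' * N ^ (2 - α), K, fun s hs1 hs2 => (hgen s hs1 hs2).trans ?_⟩
      have : N ^ (2 - s.re) ≤ N ^ (2 - α) := Real.rpow_le_rpow_of_exponent_le hN1 (by linarith)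
      gcongr
    have key := hthree (Pf t θ a) α b ρ.re ρ.im (M1c * N ^ (-c)) (C3 * B' * N ^ (2 - α))
      (Pf_diff t θ a fun k hk => (hθ' k hk).1) (by linarith) hαb.le hαβ hcase.le (by positivity) hM2 hgr hr hl
    have eρ : (⟨ρ.re, ρ.im⟩ : ℂ) = ρ := rfl
    rw [eρ, hαb] at key
    set l : ℝ := (ρ.re - α) / H with hl'
    have hl0 : 0 ≤ l := by rw [hl']; exact div_nonneg (by linarith) hH0.le
    have hl1 : l ≤ 1 := by rw [hl', div_le_one hH0]; linarith
    have hlH : (1 - l) * H = b - ρ.re := by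
      rw [hl']
      field_simp
      rw [hα]
      ring
    have m2 : (C3 * B' * N ^ (2 - α)) ^ (1 - l) ≤ C3 * B' * N ^ ((2 - α) * (1 - l)) := by
      rw [Real.mul_rpow (by positivity) (by positivity), ← Real.rpow_mul hN0.le]
      have : (C3 * B') ^ (1 - l) ≤ C3 * B' := by
        have h5 : 1 ≤ C3 * B' := by nlinarith
        calc (C3 * B') ^ (1 - l) ≤ (C3 * B') ^ (1:ℝ) := Real.rpow_le_rpow_of_exponent_le h5 (by linarith)
          _ = _ := Real.rpow_one _
      gcongr
    have m1 : (M1c * N ^ (-c)) ^ l ≤ max M1c 1 * N ^ (-c * l) := by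
      rw [Real.mul_rpow (by positivity) (by positivity), ← Real.rpow_mul hN0.le]
      have : M1c ^ l ≤ max M1c 1 := by
        calc M1c ^ l ≤ (max M1c 1) ^ l := Real.rpow_le_rpow (by positivity) (le_max_left _ _) hl0
          _ ≤ (max M1c 1) ^ (1:ℝ) := Real.rpow_le_rpow_of_exponent_le (le_max_right _ _) hl1
          _ = _ := Real.rpow_one _
      gcongr
    have mm : (C3 * B' * N ^ (2 - α)) ^ (1 - l) * (M1c * N ^ (-c)) ^ l ≤
        (C3 * max M1c 1) * B' * N ^ (-(ε / 3)) := by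
      calc _ ≤ (C3 * B' * N ^ ((2 - α) * (1 - l))) * (max M1c 1 * N ^ (-c * l)) := by gcongr
        _ = (C3 * max M1c 1) * B' * (N ^ ((2 - α) * (1 - l)) * N ^ (-c * l)) := by ring
        _ = (C3 * max M1c 1) * B' * N ^ ((2 - α) * (1 - l) + -c * l) := by rw [← Real.rpow_add hN0]
        _ ≤ _ := by
          have hexp : (2 - α) * (1 - l) + -c * l ≤ -(ε / 3) := by
            have e1 : (2 - α) * (1 - l) + -c * l = (b - ρ.re) + (1 - l) * (2 - b + c) - c := by
              rw [← hlH, hα]; ring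
            rw [e1]
            have h6 : (1 - l) * (2 - b + c) ≤ ε / 3 := by
              have h7 : (1 - l) = (b - ρ.re) / H := by
                rw [eq_div_iff hH0.ne']; exact hlH
              have hHε : c * (c + 2) / H = ε / 3 := by
                rw [hH]
                field_simp
              rw [← hHε, h7, div_mul_eq_mul_div]
              have hb2 : b ≤ 2 := by rw [hb]; linarith
              have hb0 : 0 < b := by rw [hb]; positivity
              have h8 : (b - ρ.re) * (2 - b + c) ≤ c * (c + 2) :=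
                mul_le_mul (by linarith) (by linarith) (by linarith) hc.le
              exact div_le_div_of_nonneg_right h8 hH0.le
            linarith
          have : N ^ ((2 - α) * (1 - l) + -c * l) ≤ N ^ (-(ε / 3)) := Real.rpow_le_rpow_of_exponent_le hN1 hexp
          gcongr
    have hγK : (1 + |ρ.im|) ^ K ≤ 2 ^ K * N ^ (ε / 6) := by
      calc (1 + |ρ.im|) ^ K ≤ (2 * N ^ η) ^ K := by
            gcongr
        _ = 2 ^ K * N ^ (η * K) := by rw [mul_pow, Real.rpow_mul_natCast hN0.le]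
        _ ≤ _ := by
          have : N ^ (η * K) ≤ N ^ (ε / 6) := Real.rpow_le_rpow_of_exponent_le hN1 (by linarith)
          gcongr
    have hfin : ‖Pf t θ a ρ‖ ≤ C4 * N ^ (-(ε / 6)) * B' := by
      calc ‖Pf t θ a ρ‖ ≤ D * (2 ^ K * N ^ (ε / 6)) * ((C3 * max M1c 1) * B' * N ^ (-(ε / 3))) := by
            refine key.trans ?_
            gcongr
        _ = C4 * (N ^ (ε / 6) * N ^ (-(ε / 3))) * B' := by rw [hC4]; ring
        _ = _ := by rw [← Real.rpow_add hN0]; ring_nf
    have : c0 * B' ≤ C4 * N ^ (-(ε / 6)) * B' := hPlow.trans hfin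
    have := le_of_mul_le_mul_right this (by linarith)
    linarith

end

end Pool.Agent.Zk17.NB
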