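import Pool.Agent.Zk17.NB.U4
import Pool.Agent.Zk17.NB.C3
import Pool.Agent.H313R3.TK.J

set_option autoImplicit false

/-!
# Exact rates in the Nyman–Beurling criterion
-/

namespace Pool.Agent.Zk17.NB

open MeasureTheory Set Filter Topology
open Pool.Agent.H295R2 (Nice Lap Hf Zt Zs fz Mx mu)

noncomputable section

/-- The `L^p(0,1)` norm of `1 - ∑ a_k {θ_k / x}`. -/
def err (p : ℝ) {m : ℕ} (θ a : Fin m → ℝ) : ℝ :=
  (∫ x in (0:ℝ)..1, |1 - ∑ k, a k * Int.fract (θ k / x)| ^ p) ^ (1 / p)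

/-- best approximation with dilation factors in `[1/N, 1]` -/
def dist (p N : ℝ) : ℝ :=
  sInf {δ : ℝ | ∃ (m : ℕ) (θ a : Fin m → ℝ), (∀ k, 1 / N ≤ θ k ∧ θ k ≤ 1) ∧ δ = err p θ a}

/-- best approximation with dilation factors `1, 1/2, …, 1/N` -/
def distNat (p : ℝ) (N : ℕ) : ℝ :=
  sInf {δ : ℝ | ∃ a : Fin N → ℝ, δ = err p (fun k : Fin N => 1 / ((k:ℝ) + 1)) a}

/-- the error of the truncated Möbius sum -/
def moebiusErr (p : ℝ) (N : ℕ) : ℝ :=
  (∫ x in (0:ℝ)..1, |1 + ∑ n ∈ Finset.Icc 1 N,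
    ((ArithmeticFunction.moebius n : ℤ) : ℝ) * Int.fract (1 / (n * x))| ^ p) ^ (1 / p)

/-- the supremum of the real parts of the zeros -/
def Theta : ℝ := sSup {x : ℝ | ∃ ρ : ℂ, riemannZeta ρ = 0 ∧ 0 < ρ.re ∧ ρ.re = x}

lemma zero_lt_one' {ρ : ℂ} (h : riemannZeta ρ = 0) : ρ.re < 1 := by
  by_contra h1
  exact riemannZeta_ne_zero_of_one_le_re (not_lt.1 h1) h

lemma Theta_bdd : BddAbove {x : ℝ | ∃ ρ : ℂ, riemannZeta ρ = 0 ∧ 0 < ρ.re ∧ ρ.re = x} := by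
  refine ⟨1, ?_⟩
  rintro x ⟨ρ, h1, _, rfl⟩
  exact (zero_lt_one' h1).le

lemma Theta_half : 1 / 2 ≤ Theta := by
  obtain ⟨ρ, h1, h2, _⟩ := H313.TK.exists_zero
  exact h2.trans (le_csSup Theta_bdd ⟨ρ, h1, by linarith, rfl⟩)

lemma Theta_one : Theta ≤ 1 := by
  obtain ⟨ρ, h1, h2, _⟩ := H313.TK.exists_zero
  refine csSup_le ⟨ρ.re, ρ, h1, by linarith, rfl⟩ ?_
  rintro x ⟨ρ, h1, _, rfl⟩
  exact (zero_lt_one' h1).le

lemma Theta_free : ∀ s : ℂ, Theta < s.re → riemannZeta s ≠ 0 := by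
  intro s hs h
  have := le_csSup Theta_bdd ⟨s, h, by linarith [Theta_half], rfl⟩
  change s.re ≤ Theta at this
  linarith

lemma Theta_le {θ : ℝ} (h : ∀ s : ℂ, θ < s.re → riemannZeta s ≠ 0) : Theta ≤ θ := by
  obtain ⟨ρ, h1, h2, _⟩ := H313.TK.exists_zero
  refine csSup_le ⟨ρ.re, ρ, h1, by linarith, rfl⟩ ?_
  rintro x ⟨ρ, h1, _, rfl⟩
  by_contra h3
  exact h ρ (not_le.1 h3) h1

/-- a zero near the supremum -/
lemma Theta_near {δ : ℝ} (hδ : 0 < δ) : ∃ ρ : ℂ, Zs ρ = 0 ∧ 1 / 2 ≤ ρ.re ∧ Theta - δ < ρ.re := by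
  have hZ : ∀ ρ : ℂ, riemannZeta ρ = 0 → Zs ρ = 0 := by
    intro ρ h
    have h1 : ρ ≠ 1 := by
      rintro rfl
      have := zero_lt_one' h
      simp at this
    rw [← Pool.Agent.H295R2.Zs_eq h1, h, mul_zero]
  obtain ⟨ρ0, h1, h2, _⟩ := H313.TK.exists_zero
  obtain ⟨x, ⟨ρ, a1, a2, rfl⟩, a4⟩ := exists_lt_of_lt_csSup (s := {x : ℝ | ∃ ρ : ℂ, riemannZeta ρ = 0 ∧ 0 < ρ.re ∧ ρ.re = x})
    ⟨ρ0.re, ρ0, h1, by linarith, rfl⟩ (b := Theta - δ) (by change Theta - δ < Theta; linarith)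
  rcases le_or_gt (1 / 2) ρ.re with h | h
  · exact ⟨ρ, hZ ρ a1, h, a4⟩
  · have h3 := H313.TK.refl_zero ρ a1 a2 (by linarith)
    refine ⟨1 - ρ, hZ _ h3, ?_, ?_⟩
    · simp; linarith
    · simp; linarith

lemma err_eq (p : ℝ) {m : ℕ} (θ a : Fin m → ℝ) : err p θ a = (Ip p Finset.univ θ a) ^ (1 / p) := by
  unfold err
  rw [Ip_eq]

lemma err_nonneg (p : ℝ) {m : ℕ} (θ a : Fin m → ℝ) : 0 ≤ err p θ a := by
  unfold err
  refine Real.rpow_nonneg (intervalIntegral.integral_nonneg zero_le_one fun x _ => ?_) _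
  positivity

lemma moebiusErr_eq (p : ℝ) (N : ℕ) : moebiusErr p N = (Ip p (tM N) thM aM) ^ (1 / p) := by
  unfold moebiusErr
  rw [← Ip_eq]
  congr 1
  refine intervalIntegral.integral_congr fun x _ => ?_
  congr 2
  rw [sub_eq_add_neg, ← Finset.sum_neg_distrib]
  congr 1
  unfold tM thM aM
  refine Finset.sum_congr rfl fun n _ => ?_
  have : 1 / ((n:ℝ) * x) = 1 / (n:ℝ) / x := by rw [div_div]
  rw [this]
  ring

lemma moebiusErr_err (p : ℝ) (N : ℕ) : moebiusErr p N = err p (fun k : Fin N => 1 / ((k:ℝ) + 1))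
    (fun k : Fin N => -((ArithmeticFunction.moebius (k + 1) : ℤ) : ℝ)) := by
  unfold moebiusErr err
  congr 1
  refine intervalIntegral.integral_congr fun x _ => ?_
  congr 2
  rw [sub_eq_add_neg, ← Finset.sum_neg_distrib]
  congr 1
  have h1 : Finset.Icc 1 N = (Finset.range N).map ⟨fun k => k + 1, fun a b h => by simpa using h⟩ := by
    ext k
    simp only [Finset.mem_Icc, Finset.mem_map, Finset.mem_range, Function.Embedding.coeFn_mk]
    constructor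
    · rintro ⟨h1, h2⟩
      exact ⟨k - 1, by omega, by omega⟩
    · rintro ⟨a, h1, rfl⟩
      omega
  rw [h1, Finset.sum_map, ← Fin.sum_univ_eq_sum_range (fun k => ((ArithmeticFunction.moebius
    ((⟨fun k => k + 1, fun a b h => by simpa using h⟩ : ℕ ↪ ℕ) k) : ℤ) : ℝ) *
    Int.fract (1 / (((⟨fun k => k + 1, fun a b h => by simpa using h⟩ : ℕ ↪ ℕ) k : ℕ) * x)))]
  refine Finset.sum_congr rfl fun k _ => ?_
  simp only [Function.Embedding.coeFn_mk]
  have : 1 / ((((k:ℕ) + 1 : ℕ) : ℝ) * x) = 1 / ((k:ℝ) + 1) / x := by rw [div_div]; push_cast; rfl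
  rw [this]
  ring

lemma dist_set_bdd (p N : ℝ) : BddBelow {δ : ℝ | ∃ (m : ℕ) (θ a : Fin m → ℝ), (∀ k, 1 / N ≤ θ k ∧ θ k ≤ 1) ∧ δ = err p θ a} := by
  refine ⟨0, ?_⟩
  rintro δ ⟨m, θ, a, _, rfl⟩
  exact err_nonneg _ _ _

lemma distNat_set_bdd (p : ℝ) (N : ℕ) : BddBelow {δ : ℝ | ∃ a : Fin N → ℝ, δ = err p (fun k : Fin N => 1 / ((k:ℝ) + 1)) a} := by
  refine ⟨0, ?_⟩
  rintro δ ⟨a, rfl⟩
  exact err_nonneg _ _ _

lemma distNat_le_moebius (p : ℝ) (N : ℕ) : distNat p N ≤ moebiusErr p N := by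
  rw [moebiusErr_err]
  exact csInf_le (distNat_set_bdd p N) ⟨_, rfl⟩

lemma distNat_le_one {p : ℝ} (N : ℕ) : distNat p N ≤ 1 := by
  have h : err p (fun k : Fin N => 1 / ((k:ℝ) + 1)) (fun _ => 0) = 1 := by
    unfold err
    simp
  exact csInf_le (distNat_set_bdd p N) ⟨_, h.symm⟩

lemma dist_le_distNat (p : ℝ) {N : ℕ} (hN : 1 ≤ N) : dist p N ≤ distNat p N := by
  refine le_csInf ⟨_, fun _ => 0, rfl⟩ ?_
  rintro δ ⟨a, rfl⟩
  refine csInf_le (dist_set_bdd p N) ⟨N, _, a, fun k => ?_, rfl⟩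
  have hk : ((k:ℕ):ℝ) + 1 ≤ N := by exact_mod_cast k.2
  have hk0 : (0:ℝ) ≤ ((k:ℕ):ℝ) := Nat.cast_nonneg _
  constructor
  · exact one_div_le_one_div_of_le (by linarith) hk
  · rw [div_le_one (by linarith)]
    linarith

lemma dist_nonneg' (p N : ℝ) : 0 ≤ dist p N := by
  refine Real.sInf_nonneg ?_
  rintro δ ⟨m, θ, a, _, rfl⟩
  exact err_nonneg _ _ _

/-- every combination of level `N` has error at least `N^(-e-δ)` -/
lemma lower {p δ : ℝ} (hp : 1 ≤ p) (hδ : 0 < δ) : ∀ᶠ N : ℝ in atTop,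
    N ^ (-(max (1 / p - Theta) 0 + δ)) ≤ dist p N := by
  set e : ℝ := max (1 / p - Theta) 0 with he
  have he0 : 0 ≤ e := le_max_right _ _
  set ε : ℝ := min (δ / 2) 1 with hε
  have hε0 : 0 < ε := lt_min (by linarith) one_pos
  obtain ⟨η, hη, hcert⟩ := cert_aux hp (c := e + δ) (ε := ε) (by linarith) hε0 (min_le_right _ _)
  obtain ⟨ρ, h1, h2, h3⟩ := Theta_near (δ := δ / 2) (by linarith)
  have ev : ∀ᶠ N : ℝ in atTop, |ρ.im| ≤ N ^ η := (tendsto_rpow_atTop hη).eventually_ge_atTop _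
  filter_upwards [hcert, ev] with N h4 h5
  refine le_csInf ⟨_, 0, fun _ => 0, fun _ => 0, fun k => k.elim0, rfl⟩ ?_
  rintro x ⟨m, θ, a, hθ, rfl⟩
  by_contra h6
  push Not at h6
  rw [err_eq] at h6
  refine h4 Finset.univ θ a (fun k _ => hθ k) h6.le ρ h1 h2 ?_ h5
  have h7 : 1 / p - e ≤ Theta := by
    have := le_max_left (1 / p - Theta) 0
    linarith
  have h8 : ε ≤ δ / 2 := min_le_left _ _
  linarith

/-- the upper bound for Báez-Duarte's class -/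
lemma upper {p δ : ℝ} (hp : 1 ≤ p) (hδ : 0 < δ) : ∀ᶠ N : ℕ in atTop,
    distNat p N ≤ (N:ℝ) ^ (-(max (1 / p - Theta) 0 - δ)) := by
  rcases lt_or_ge Theta (1 / p) with h | h
  · have h1 := rate hp Theta_half h Theta_free (c := 1 / p - Theta - δ) (by linarith)
    filter_upwards [h1] with N h2
    rw [max_eq_left (by linarith)]
    exact (distNat_le_moebius p N).trans ((moebiusErr_eq p N).le.trans h2)
  · filter_upwards [eventually_ge_atTop 1] with N hN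
    rw [max_eq_right (by linarith)]
    refine (distNat_le_one N).trans (Real.one_le_rpow (by exact_mod_cast hN) (by linarith))

lemma log_div_of_bounds {f : ℕ → ℝ} {e : ℝ} (h1 : ∀ δ : ℝ, 0 < δ → ∀ᶠ N : ℕ in atTop, (N:ℝ) ^ (-(e + δ)) ≤ f N)
    (h2 : ∀ δ : ℝ, 0 < δ → ∀ᶠ N : ℕ in atTop, f N ≤ (N:ℝ) ^ (-(e - δ))) :
    Tendsto (fun N : ℕ => Real.log (f N) / Real.log N) atTop (𝓝 (-e)) := by
  rw [Metric.tendsto_atTop']
  intro δ hδ
  obtain ⟨N1, hN1⟩ := eventually_atTop.1 ((h1 (δ / 2) (by linarith)).and ((h2 (δ / 2) (by linarith)).and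
    (eventually_ge_atTop 2)))
  refine ⟨N1, fun N hN => ?_⟩
  obtain ⟨a1, a2, a3⟩ := hN1 N hN.le
  have hN2 : (2:ℝ) ≤ N := by exact_mod_cast a3
  have hN0 : (0:ℝ) < N := by linarith
  have hL : 0 < Real.log N := Real.log_pos (by linarith)
  have hf0 : 0 < f N := lt_of_lt_of_le (Real.rpow_pos_of_pos hN0 _) a1
  have b1 := Real.log_le_log (Real.rpow_pos_of_pos hN0 _) a1
  have b2 := Real.log_le_log hf0 a2
  rw [Real.log_rpow hN0] at b1 b2
  rw [Real.dist_eq, abs_lt]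
  have c1 : -(e + δ / 2) ≤ Real.log (f N) / Real.log N := by rw [le_div_iff₀ hL]; exact b1
  have c2 : Real.log (f N) / Real.log N ≤ -(e - δ / 2) := by rw [div_le_iff₀ hL]; exact b2
  constructor <;> linarith

theorem main1 (p : ℝ) (hp : 1 ≤ p) :
    Tendsto (fun N : ℕ => Real.log (dist p N) / Real.log N) atTop (𝓝 (-max (1 / p - Theta) 0)) ∧
    Tendsto (fun N : ℕ => Real.log (distNat p N) / Real.log N) atTop (𝓝 (-max (1 / p - Theta) 0)) := by
  constructor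
  · refine log_div_of_bounds (fun δ hδ => tendsto_natCast_atTop_atTop.eventually (lower hp hδ)) fun δ hδ => ?_
    filter_upwards [upper hp hδ, eventually_ge_atTop 1] with N h1 h2
    exact (dist_le_distNat p h2).trans h1
  · refine log_div_of_bounds (fun δ hδ => ?_) fun δ hδ => upper hp hδ
    filter_upwards [tendsto_natCast_atTop_atTop.eventually (lower hp hδ), eventually_ge_atTop 1] with N h1 h2
    exact h1.trans (dist_le_distNat p h2)

theorem main2 (p : ℝ) (hp : 1 ≤ p) (h : p * Theta < 1) :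
    Tendsto (fun N : ℕ => Real.log (moebiusErr p N) / Real.log N) atTop (𝓝 (-(1 / p - Theta))) := by
  have hp0 : 0 < p := by linarith
  have h0 : Theta < 1 / p := by rw [lt_div_iff₀ hp0]; linarith
  refine log_div_of_bounds (fun δ hδ => ?_) fun δ hδ => ?_
  · filter_upwards [tendsto_natCast_atTop_atTop.eventually (lower hp hδ), eventually_ge_atTop 1] with N h1 h2
    rw [max_eq_left (by linarith)] at h1
    exact h1.trans ((dist_le_distNat p h2).trans (distNat_le_moebius p N))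
  · filter_upwards [rate hp Theta_half h0 Theta_free (c := 1 / p - Theta - δ) (by linarith)] with N h1
    exact (moebiusErr_eq p N).le.trans h1

/-- the certificate -/
theorem main3 (p c ε : ℝ) (hp : 1 ≤ p) (hc : 0 < c) (hε : 0 < ε) :
    ∃ η : ℝ, 0 < η ∧ ∃ N₀ : ℝ, ∀ N : ℝ, N₀ ≤ N → ∀ (m : ℕ) (θ a : Fin m → ℝ),
      (∀ k, 1 / N ≤ θ k ∧ θ k ≤ 1) → err p θ a ≤ N ^ (-c) →
      ∀ s : ℂ, 1 / p - c + ε ≤ s.re → |s.im| ≤ N ^ η → riemannZeta s ≠ 0 := by
  obtain ⟨η, hη, hcert⟩ := cert_aux hp (c := c) (ε := min ε 1) hc (lt_min hε one_pos) (min_le_right _ _)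
  obtain ⟨ρ0, h1, h2, h3⟩ := H313.TK.exists_zero
  have hZ : ∀ ρ : ℂ, riemannZeta ρ = 0 → Zs ρ = 0 := by
    intro ρ h
    have h1 : ρ ≠ 1 := by
      rintro rfl
      have := zero_lt_one' h
      simp at this
    rw [← Pool.Agent.H295R2.Zs_eq h1, h, mul_zero]
  have ev : ∀ᶠ N : ℝ in atTop, |ρ0.im| ≤ N ^ η := (tendsto_rpow_atTop hη).eventually_ge_atTop _
  obtain ⟨N₀, hN₀⟩ := eventually_atTop.1 (hcert.and ev)
  refine ⟨η, hη, N₀, fun N hN m θ a hθ herr s hs him hz => ?_⟩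
  obtain ⟨h4, h5⟩ := hN₀ N hN
  rw [err_eq] at herr
  have hmin : min ε 1 ≤ ε := min_le_left _ _
  rcases le_or_gt (1 / 2) s.re with h | h
  · exact h4 Finset.univ θ a (fun k _ => hθ k) herr s (hZ s hz) h (by linarith) him
  · exact h4 Finset.univ θ a (fun k _ => hθ k) herr ρ0 (hZ ρ0 h1) h2 (by linarith) h5

theorem main4 (p θ : ℝ) (hp : 1 ≤ p) (hθ : 1 / 2 ≤ θ) (hθp : θ < 1 / p) :
    (∀ s : ℂ, θ < s.re → riemannZeta s ≠ 0) ↔
      ∀ c : ℝ, c < 1 / p - θ → ∃ᶠ N : ℕ in atTop, dist p N ≤ (N:ℝ) ^ (-c) := by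
  constructor
  · intro h c hc
    refine Eventually.frequently ?_
    filter_upwards [rate hp hθ hθp h hc, eventually_ge_atTop 1] with N h1 h2
    exact (dist_le_distNat p h2).trans ((distNat_le_moebius p N).trans ((moebiusErr_eq p N).le.trans h1))
  · intro h s hs hz
    -- the supremum is larger than θ
    have hΘ : s.re ≤ Theta := le_csSup Theta_bdd ⟨s, hz, by linarith, rfl⟩
    set δ : ℝ := (s.re - θ) / 4 with hδ
    have hs1 := zero_lt_one' hz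
    have hδ0 : 0 < δ := by rw [hδ]; linarith
    set e : ℝ := max (1 / p - Theta) 0 with he
    -- e + 2 δ < 1/p - θ or so
    obtain ⟨c, hc1, hc2⟩ : ∃ c : ℝ, c < 1 / p - θ ∧ e < c := by
      have : e < 1 / p - θ := max_lt (by linarith) (by linarith)
      exact ⟨(e + (1 / p - θ)) / 2, by linarith, by linarith⟩
    have hf := h c hc1
    have hl := tendsto_natCast_atTop_atTop.eventually (lower hp (δ := (c - e) / 2) (by linarith))
    obtain ⟨N, h1, h2, h3⟩ := (hf.and_eventually (hl.and (eventually_ge_atTop 2))).exists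
    have hN2 : (2:ℝ) ≤ N := by exact_mod_cast h3
    have h4 := h2.trans h1
    rw [Real.rpow_le_rpow_left_iff (by linarith)] at h4
    linarith

theorem main5 : (∃ σ₀ : ℝ, 1 / 2 < σ₀ ∧ σ₀ < 1 ∧ ∀ s : ℂ, σ₀ ≤ s.re → riemannZeta s ≠ 0) ↔
      ∃ c : ℝ, 0 < c ∧ ∃ᶠ N : ℕ in atTop, dist 1 N ≤ (N:ℝ) ^ (-c) := by
  constructor
  · rintro ⟨σ₀, h1, h2, h3⟩
    have := (main4 1 σ₀ le_rfl h1.le (by simpa using h2)).1 (fun s hs => h3 s hs.le)
    exact ⟨(1 - σ₀) / 2, by linarith, this _ (by linarith)⟩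
  · rintro ⟨c, hc, hf⟩
    have hΘ : Theta < 1 := by
      by_contra hcon
      have h1 : Theta = 1 := le_antisymm Theta_one (not_lt.1 hcon)
      have hl := tendsto_natCast_atTop_atTop.eventually (lower (p := 1) le_rfl (δ := c / 2) (by linarith))
      rw [h1] at hl
      obtain ⟨N, h1, h2, h3⟩ := (hf.and_eventually (hl.and (eventually_ge_atTop 2))).exists
      have hN2 : (2:ℝ) ≤ N := by exact_mod_cast h3
      have h4 := h2.trans h1
      rw [Real.rpow_le_rpow_left_iff (by linarith)] at h4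
      norm_num at h4
      linarith
    have := Theta_half
    exact ⟨(Theta + 1) / 2, by linarith, by linarith, fun s hs => Theta_free s (by linarith)⟩

end

end Pool.Agent.Zk17.NB
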