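import Pool.Agent.Zk17.NB.B

set_option autoImplicit false

/-!
# The truncated Möbius series
-/

namespace Pool.Agent.Zk17.NB

open MeasureTheory Set Filter Topology
open Pool.Agent.H295R2 (Nice Lap Hf Zt Zs fz Mx mu)

noncomputable section

lemma lap_of_ioi (g : ℝ → ℂ) (s : ℂ) :
    ∫ t in Ioi (1:ℝ), g t * (t:ℂ) ^ (-(s + 1)) = ∫ v in Ioi (0:ℝ), g (Real.exp v) * Complex.exp (-(s*v)) := by
  have himg : Real.exp '' Ioi (0:ℝ) = Ioi 1 := by
    ext t
    constructor
    · rintro ⟨v, hv, rfl⟩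
      exact Real.one_lt_exp_iff.2 hv
    · intro ht
      exact ⟨Real.log t, Real.log_pos ht, Real.exp_log (by linarith [mem_Ioi.1 ht])⟩
  rw [← himg, integral_image_eq_integral_abs_deriv_smul measurableSet_Ioi
    (fun x _ => (Real.hasDerivAt_exp x).hasDerivWithinAt) (Real.exp_injective.injOn)]
  refine setIntegral_congr_fun measurableSet_Ioi fun v _ => ?_
  rw [abs_of_pos (Real.exp_pos v), Complex.real_smul]
  have h1 : ((Real.exp v : ℝ) : ℂ) = Complex.exp v := by push_cast; rfl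
  have h2 : ((Real.exp v : ℝ) : ℂ) ^ (-(s + 1)) = Complex.exp (-(s+1) * v) := by
    rw [Complex.cpow_def_of_ne_zero (by exact_mod_cast (Real.exp_pos v).ne'), ← Complex.ofReal_log (Real.exp_pos v).le,
      Real.log_exp, mul_comm]
  rw [h2, h1]
  have h3 : Complex.exp v * Complex.exp (-(s+1) * v) = Complex.exp (-(s*v)) := by
    rw [← Complex.exp_add]; congr 1; ring
  linear_combination (g (Real.exp v)) * h3

/-- the partial sum of `∑ μ(n) n^{-s}` -/
def FN (N : ℕ) (s : ℂ) : ℂ := ∑ n ∈ Finset.Icc 1 N, ((ArithmeticFunction.moebius n : ℤ) : ℂ) / (n : ℂ) ^ s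

/-- `∑_{n ≤ N} μ(n)/n` -/
def mN (N : ℕ) : ℝ := ∑ n ∈ Finset.Icc 1 N, ((ArithmeticFunction.moebius n : ℤ) : ℝ) / n

/-- the Möbius function beyond `N` -/
def fN (N : ℕ) (n : ℕ) : ℂ := if n ≤ N then 0 else ((ArithmeticFunction.moebius n : ℤ) : ℂ)

/-- the Mertens function beyond `N` -/
def RN (N : ℕ) (u : ℝ) : ℂ := if Real.log N ≤ u then ((Mx (Real.exp u) - Mx N : ℝ) : ℂ) else 0

lemma FN_one (N : ℕ) : FN N 1 = (mN N : ℂ) := by
  unfold FN mN
  push_cast
  refine Finset.sum_congr rfl fun n _ => ?_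
  rw [Complex.cpow_one]

lemma FN_diff (N : ℕ) : Differentiable ℂ (FN N) := by
  unfold FN
  intro s
  refine DifferentiableAt.fun_sum fun n hn => ?_
  rw [Finset.mem_Icc] at hn
  have hn0 : (n : ℂ) ≠ 0 := by exact_mod_cast (by omega : n ≠ 0)
  refine DifferentiableAt.div (by fun_prop) ?_ ?_
  · exact DifferentiableAt.const_cpow differentiableAt_id (Or.inl hn0)
  · rw [Complex.cpow_def_of_ne_zero hn0]
    exact Complex.exp_ne_zero _

lemma fN_sum (N m : ℕ) : ∑ k ∈ Finset.Icc 1 m, fN N k = if N ≤ m then ((Mx m - Mx N : ℝ) : ℂ) else 0 := by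
  split_ifs with h
  · have e1 : ∀ x : ℕ, ((Mx (x:ℝ) : ℝ) : ℂ) = ∑ k ∈ Finset.Icc 1 x, ((ArithmeticFunction.moebius k : ℤ) : ℂ) := by
      intro x
      unfold Mx mu
      rw [Nat.floor_natCast]
      push_cast
      rfl
    rw [Complex.ofReal_sub, e1, e1]
    have h2 : Finset.Icc 1 m = Finset.Icc 1 N ∪ Finset.Ioc N m := by
      ext k; simp only [Finset.mem_Icc, Finset.mem_union, Finset.mem_Ioc]; omega
    have hd : Disjoint (Finset.Icc 1 N) (Finset.Ioc N m) := by
      rw [Finset.disjoint_left]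
      intro k h1 h2
      rw [Finset.mem_Icc] at h1
      rw [Finset.mem_Ioc] at h2
      omega
    rw [h2, Finset.sum_union hd, Finset.sum_union hd]
    have h3 : ∑ k ∈ Finset.Icc 1 N, fN N k = 0 := by
      refine Finset.sum_eq_zero fun k hk => ?_
      rw [Finset.mem_Icc] at hk
      unfold fN
      rw [if_pos hk.2]
    have h4 : ∑ k ∈ Finset.Ioc N m, fN N k = ∑ k ∈ Finset.Ioc N m, ((ArithmeticFunction.moebius k : ℤ) : ℂ) := by
      refine Finset.sum_congr rfl fun k hk => ?_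
      rw [Finset.mem_Ioc] at hk
      unfold fN
      rw [if_neg (by omega)]
    rw [h3, h4]
    ring
  · refine Finset.sum_eq_zero fun k hk => ?_
    rw [Finset.mem_Icc] at hk
    unfold fN
    rw [if_pos (by omega)]

lemma RN_nice {C κ : ℝ} (hκ : 0 ≤ κ) (hM : ∀ y : ℝ, 1 ≤ y → |Mx y| ≤ C * y ^ κ) {N : ℕ} (hN : 1 ≤ N) :
    Nice (RN N) (2 * C) κ (Real.log N) where
  meas := by
    refine Measurable.ite measurableSet_Ici ?_ measurable_const
    refine Complex.measurable_ofReal.comp (Measurable.sub_const ?_ _)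
    have h1 : Measurable (fun k : ℕ => ∑ j ∈ Finset.Icc 1 k, mu j) := measurable_from_nat
    exact h1.comp (Nat.measurable_floor.comp Real.measurable_exp)
  bound := by
    intro u
    have hC : 0 ≤ C := by
      have := (abs_nonneg _).trans (hM 1 le_rfl)
      simpa using this
    unfold RN
    split_ifs with h
    · have hN0 : (0:ℝ) < N := by exact_mod_cast hN
      have hN1 : (1:ℝ) ≤ N := by exact_mod_cast hN
      have hNu : (N:ℝ) ≤ Real.exp u := by rwa [← Real.log_le_iff_le_exp hN0]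
      rw [Complex.norm_real, Real.norm_eq_abs]
      have h1 := hM (Real.exp u) (hN1.trans hNu)
      have h2 := hM N hN1
      have h3 : Real.exp u ^ κ = Real.exp (κ * u) := by rw [← Real.exp_mul]; ring_nf
      rw [h3] at h1
      have h4 : (N:ℝ) ^ κ ≤ Real.exp (κ * u) := by
        rw [← h3]
        exact Real.rpow_le_rpow hN0.le hNu hκ
      calc |Mx (Real.exp u) - Mx N| ≤ |Mx (Real.exp u)| + |Mx N| := abs_sub _ _
        _ ≤ C * Real.exp (κ * u) + C * Real.exp (κ * u) := by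
          gcongr
          exact h2.trans (by gcongr)
        _ = _ := by ring
    · rw [norm_zero]
      positivity
  zero := by
    intro u hu
    unfold RN
    rw [if_neg (not_le.2 hu)]

/-- the Dirichlet series beyond `N`, `Re s > 1` -/
lemma tail_big (N : ℕ) (hN : 1 ≤ N) {s : ℂ} (hs : 1 < s.re) : fz s - FN N s = s * Lap (RN N) s := by
  have h1 := Pool.Agent.H295R2.moebius_lseries hs
  have h2 : HasSum (fun n : ℕ => if n ∈ Finset.Icc 1 N then
      LSeries.term (fun n => ((ArithmeticFunction.moebius n : ℤ) : ℂ)) s n else 0) (FN N s) := by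
    have e : FN N s = ∑ n ∈ Finset.Icc 1 N, (if n ∈ Finset.Icc 1 N then
      LSeries.term (fun n => ((ArithmeticFunction.moebius n : ℤ) : ℂ)) s n else 0) := by
      unfold FN
      refine Finset.sum_congr rfl fun n hn => ?_
      rw [if_pos hn]
      rw [Finset.mem_Icc] at hn
      rw [LSeries.term_of_ne_zero (by omega)]
    rw [e]
    exact hasSum_sum_of_ne_finset_zero fun n hn => if_neg hn
  have h3 : LSeriesHasSum (fN N) s (fz s - FN N s) := by
    have h4 := HasSum.sub h1 h2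
    have hfun : (LSeries.term (fN N) s) = fun n => LSeries.term (fun n => ((ArithmeticFunction.moebius n : ℤ) : ℂ)) s n -
        (if n ∈ Finset.Icc 1 N then
      LSeries.term (fun n => ((ArithmeticFunction.moebius n : ℤ) : ℂ)) s n else 0) := ?_
    · unfold LSeriesHasSum
      rw [hfun]
      exact h4
    funext n
    by_cases hn : n = 0
    · subst hn
      simp [LSeries.term_zero]
    · rw [LSeries.term_of_ne_zero hn, LSeries.term_of_ne_zero hn]
      unfold fN
      by_cases h5 : n ≤ N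
      · have h6 : n ∈ Finset.Icc 1 N := Finset.mem_Icc.2 ⟨by omega, h5⟩
        rw [if_pos h5, if_pos h6]
        simp
      · have h6 : n ∉ Finset.Icc 1 N := by rw [Finset.mem_Icc]; omega
        rw [if_neg h5, if_neg h6, sub_zero]
  have hO : (fun n => ∑ k ∈ Finset.Icc 1 n, fN N k) =O[atTop] fun n : ℕ => (n : ℝ) ^ (1:ℝ) := by
    refine Asymptotics.IsBigO.of_bound 1 (Eventually.of_forall fun n => ?_)
    rw [Real.rpow_one, one_mul, Real.norm_of_nonneg (by positivity)]
    refine (norm_sum_le _ _).trans ?_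
    have : ∀ k ∈ Finset.Icc 1 n, ‖fN N k‖ ≤ 1 := by
      intro k _
      unfold fN
      split_ifs
      · simp
      · rw [Complex.norm_intCast]
        exact_mod_cast ArithmeticFunction.abs_moebius_le_one
    refine (Finset.sum_le_sum this).trans ?_
    simp
  have h6 := LSeries_eq_mul_integral (fN N) (r := 1) zero_le_one hs h3.LSeriesSummable hO
  rw [h3.LSeries_eq] at h6
  rw [h6]
  congr 1
  have h7 := lap_of_ioi (fun t => ∑ k ∈ Finset.Icc 1 ⌊t⌋₊, fN N k) s
  rw [h7]
  unfold Lap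
  rw [← integral_indicator measurableSet_Ioi]
  have hae : ∀ᵐ u : ℝ, u ≠ 0 := by
    have : ({0} : Set ℝ)ᶜ ∈ ae volume := by
      rw [compl_mem_ae_iff]
      exact measure_singleton 0
    exact this
  refine integral_congr_ae ?_
  filter_upwards [hae] with u hu
  have hlogN : 0 ≤ Real.log N := Real.log_natCast_nonneg N
  by_cases h8 : 0 < u
  · rw [indicator_of_mem (mem_Ioi.2 h8), fN_sum]
    congr 1
    have hN0 : (0:ℝ) < N := by exact_mod_cast hN
    unfold RN
    have h9 : N ≤ ⌊Real.exp u⌋₊ ↔ Real.log N ≤ u := by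
      rw [Nat.le_floor_iff (Real.exp_pos u).le, Real.log_le_iff_le_exp hN0]
    have h10 : Mx ((⌊Real.exp u⌋₊ : ℕ) : ℝ) = Mx (Real.exp u) := by
      unfold Mx
      rw [Nat.floor_natCast]
    by_cases h11 : Real.log N ≤ u
    · rw [if_pos (h9.2 h11), if_pos h11, h10]
    · rw [if_neg (fun h => h11 (h9.1 h)), if_neg h11]
  · rw [indicator_of_notMem (by rw [mem_Ioi]; exact h8)]
    unfold RN
    have : u < 0 := lt_of_le_of_ne (not_lt.1 h8) hu
    rw [if_neg (by linarith), zero_mul]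

/-- the Dirichlet series beyond `N` in the zero-free half-plane -/
lemma tail_eq {C κ θ : ℝ} (hκ : 0 ≤ κ) (hθκ : θ ≤ κ) (hM : ∀ y : ℝ, 1 ≤ y → |Mx y| ≤ C * y ^ κ)
    (hz : ∀ s : ℂ, θ < s.re → Zs s ≠ 0) (N : ℕ) (hN : 1 ≤ N) {s : ℂ} (hs : κ < s.re) :
    fz s - FN N s = s * Lap (RN N) s := by
  have hn := RN_nice hκ hM hN
  have hA1 : AnalyticOnNhd ℂ (fun s => fz s - FN N s) {s : ℂ | κ < s.re} := by
    refine DifferentiableOn.analyticOnNhd (fun z hz' => ?_) (Pool.Agent.H295R2.halfplane_open κ)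
    have hz'' : κ < z.re := hz'
    exact ((Pool.Agent.H295R2.fz_differentiableAt (hz z (by linarith))).sub
      (FN_diff N z)).differentiableWithinAt
  have hA2 : AnalyticOnNhd ℂ (fun s => s * Lap (RN N) s) {s : ℂ | κ < s.re} := by
    refine DifferentiableOn.analyticOnNhd (fun z hz' => ?_) (Pool.Agent.H295R2.halfplane_open κ)
    exact (differentiableAt_id.mul (hn.Lap_differentiableAt hz')).differentiableWithinAt
  have := hA1.eqOn_of_preconnected_of_eventuallyEq hA2 (Pool.Agent.H295R2.halfplane_preconnected κ)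
    (z₀ := ((|κ| + 2 : ℝ) : ℂ)) (by
      show κ < ((|κ| + 2 : ℝ) : ℂ).re
      rw [Complex.ofReal_re]
      linarith [le_abs_self κ]) (by
      have h1 : {s : ℂ | 1 < s.re} ∈ 𝓝 ((|κ| + 2 : ℝ) : ℂ) :=
        (Pool.Agent.H295R2.halfplane_open 1).mem_nhds (by
          show 1 < ((|κ| + 2 : ℝ) : ℂ).re
          rw [Complex.ofReal_re]
          linarith [abs_nonneg κ])
      filter_upwards [h1] with z hz'
      exact tail_big N hN hz')
  exact this hs

/-- `∑_{n ≤ N} μ(n)/n` is small -/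
lemma mN_bound {C κ θ : ℝ} (hκ : 0 ≤ κ) (hκ1 : κ < 1) (hθκ : θ ≤ κ) (hM : ∀ y : ℝ, 1 ≤ y → |Mx y| ≤ C * y ^ κ)
    (hz : ∀ s : ℂ, θ < s.re → Zs s ≠ 0) (N : ℕ) (hN : 1 ≤ N) :
    |mN N| ≤ 2 * C / (1 - κ) * (N:ℝ) ^ (κ - 1) := by
  have hn := RN_nice hκ hM hN
  have hN0 : (0:ℝ) < N := by exact_mod_cast hN
  have h1 := tail_eq hκ hθκ hM hz N hN (s := 1) (by simpa using hκ1)
  have h2 : fz 1 = 0 := by
    unfold fz
    simp
  rw [h2, FN_one, zero_sub, one_mul] at h1
  have h3 := hn.norm_Lap_le (s := 1) (by simpa using hκ1)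
  rw [← h1, norm_neg, Complex.norm_real, Real.norm_eq_abs, Complex.one_re] at h3
  refine h3.trans (le_of_eq ?_)
  rw [Real.rpow_def_of_pos hN0, mul_comm (Real.log N)]
  ring

/-- the error function of the truncated Möbius sum -/
def tM (N : ℕ) : Finset ℕ := Finset.Icc 1 N
def thM (n : ℕ) : ℝ := 1 / n
def aM (n : ℕ) : ℝ := -((ArithmeticFunction.moebius n : ℤ) : ℝ)

lemma thM_bd (N : ℕ) : ∀ k ∈ tM N, 0 < thM k ∧ thM k ≤ 1 := by
  intro k hk
  unfold tM at hk
  rw [Finset.mem_Icc] at hk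
  have hk1 : (1:ℝ) ≤ k := by exact_mod_cast hk.1
  unfold thM
  exact ⟨by positivity, by rw [div_le_one (by linarith)]; exact hk1⟩

lemma Af_M (N : ℕ) : Af (tM N) thM aM = - mN N := by
  unfold Af tM thM aM mN
  rw [← Finset.sum_neg_distrib]
  exact Finset.sum_congr rfl fun n _ => by ring

lemma Ff_M (N : ℕ) (s : ℂ) : Ff (tM N) thM aM s = - FN N s := by
  unfold Ff tM thM aM FN
  rw [← Finset.sum_neg_distrib]
  refine Finset.sum_congr rfl fun n hn => ?_
  rw [Finset.mem_Icc] at hn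
  have hn0 : (0:ℝ) < n := by exact_mod_cast hn.1
  have e : (((1 / (n:ℝ) : ℝ)) : ℂ) ^ s = ((n : ℂ) ^ s)⁻¹ := by
    rw [one_div, Complex.ofReal_inv, Complex.ofReal_natCast, Complex.inv_cpow]
    rw [Complex.natCast_arg]
    exact Real.pi_pos.ne
  rw [e]
  push_cast
  ring

/-- the Laplace transform of the error function -/
lemma lap_M {C κ θ : ℝ} (hκ : 0 ≤ κ) (hθκ : θ ≤ κ) (hM : ∀ y : ℝ, 1 ≤ y → |Mx y| ≤ C * y ^ κ)
    (hz : ∀ s : ℂ, θ < s.re → Zs s ≠ 0) (N : ℕ) (hN : 1 ≤ N) {s : ℂ} (hs : κ < s.re) (hs1 : s ≠ 1) :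
    Lap (kf (tM N) thM aM) s = (mN N : ℂ) / (s - 1) + riemannZeta s * Lap (RN N) s := by
  have hs0 : 0 < s.re := by linarith
  have hs0' : s ≠ 0 := by rintro rfl; simp at hs0
  have hs1' : s - 1 ≠ 0 := sub_ne_zero.2 hs1
  have h1 := kf_lap (tM N) thM aM (thM_bd N) hs0
  have h2 := tail_eq hκ hθκ hM hz N hN hs
  have h3 := hz s (by linarith)
  have h4 : fz s * Zs s = s - 1 := by
    unfold fz
    field_simp
  unfold Pf at h1
  rw [Af_M, Ff_M] at h1
  have h5 := Pool.Agent.H295R2.Zs_eq hs1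
  have h6 : s * (s - 1) * Lap (kf (tM N) thM aM) s =
      s * (s - 1) * ((mN N : ℂ) / (s - 1) + riemannZeta s * Lap (RN N) s) := by
    rw [h1]
    have e : s * (s - 1) * ((mN N : ℂ) / (s - 1) + riemannZeta s * Lap (RN N) s) =
        s * mN N + s * Lap (RN N) s * ((s - 1) * riemannZeta s) := by
      field_simp
    rw [e, h5]
    push_cast
    linear_combination (Zs s) * h2 - h4
  exact mul_left_cancel₀ (mul_ne_zero hs0' hs1') h6

end

end Pool.Agent.Zk17.NB
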