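import Pool.Agent.Zk17.NB.U1
import Pool.Agent.H986R2.K4.A2
import Pool.Agent.H986R2.K4.SAB
import Pool.Agent.H986R2.K4.A1

set_option autoImplicit false

/-!
# Upper bound for the truncated Möbius sums
-/

namespace Pool.Agent.Zk17.NB

open MeasureTheory Set Filter Topology
open Pool.Agent.H295R2 (Nice Lap Hf Zt Zs fz Mx mu)

noncomputable section

/-- the Lindelöf bound on a vertical line in the zero-free half-plane -/
lemma zeta_line {θ σ : ℝ} (hθ : 1 / 2 ≤ θ) (hθσ : θ < σ) (hσ1 : σ < 1)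
    (hz : ∀ s : ℂ, θ < s.re → riemannZeta s ≠ 0) {ε : ℝ} (hε : 0 < ε) :
    ∃ C : ℝ, 1 ≤ C ∧ ∀ s : ℂ, s.re = σ → ‖riemannZeta s‖ ≤ C * (1 + |s.im|) ^ ε := by
  have hZB := Pool.Agent.H986R2.K4.a2 Pool.Agent.H986R2.K4.sab Pool.Agent.H986R2.K4.a1 (θ - 1 / 2) (by linarith)
    (by linarith) (fun s hs => hz s (by linarith))
  obtain ⟨t1, ht1, h1⟩ := hZB (min ε (σ - θ)) (lt_min hε (by linarith))
  have hcpt : IsCompact (Icc σ σ ×ℂ Icc (-t1) t1) := isCompact_Icc.reProdIm isCompact_Icc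
  have hcont : ContinuousOn riemannZeta (Icc σ σ ×ℂ Icc (-t1) t1) := by
    intro s hs
    rw [Complex.mem_reProdIm] at hs
    have hs1 : s ≠ 1 := by
      rintro rfl
      have := hs.1.2
      simp at this
      linarith
    exact (differentiableAt_riemannZeta hs1).continuousAt.continuousWithinAt
  obtain ⟨M, hM⟩ := hcpt.exists_bound_of_continuousOn hcont
  refine ⟨max M 1, le_max_right _ _, fun s hs => ?_⟩
  have hone : 1 ≤ (1 + |s.im|) ^ ε := Real.one_le_rpow (by linarith [abs_nonneg s.im]) hε.le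
  have hup : ∀ z : ℂ, z.re = σ → t1 ≤ z.im → ‖riemannZeta z‖ ≤ (1 + |z.im|) ^ ε := by
    intro z hz1 hz2
    have h2 := (h1 z (by rw [hz1]; linarith [min_le_right ε (σ - θ)]) hz2).2.2.2
    have hpos : 0 < z.im := by linarith
    calc ‖riemannZeta z‖ ≤ z.im ^ (min ε (σ - θ)) := h2
      _ ≤ z.im ^ ε := Real.rpow_le_rpow_of_exponent_le (by linarith) (min_le_left _ _)
      _ ≤ (1 + |z.im|) ^ ε := by
        apply Real.rpow_le_rpow hpos.le _ hε.le
        rw [abs_of_pos hpos]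
        linarith
  rcases le_or_gt t1 |s.im| with h | h
  · have key : ‖riemannZeta s‖ ≤ (1 + |s.im|) ^ ε := by
      rcases le_total 0 s.im with h3 | h3
      · rw [abs_of_nonneg h3] at h
        exact hup s hs h
      · rw [abs_of_nonpos h3] at h
        have h4 := hup (starRingEnd ℂ s) (by simpa using hs) (by simpa using h)
        rw [riemannZeta_conj, Complex.norm_conj] at h4
        simpa using h4
    calc ‖riemannZeta s‖ ≤ 1 * (1 + |s.im|) ^ ε := by rw [one_mul]; exact key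
      _ ≤ _ := by gcongr; exact le_max_right _ _
  · have h5 := hM s (by
      rw [Complex.mem_reProdIm]
      exact ⟨⟨hs.ge, hs.le⟩, (abs_lt.1 h).1.le, (abs_lt.1 h).2.le⟩)
    calc ‖riemannZeta s‖ ≤ M := h5
      _ ≤ max M 1 * 1 := by rw [mul_one]; exact le_max_left _ _
      _ ≤ _ := by gcongr

lemma mu_floor {m : ℕ} (hm : 1 ≤ m) : ∑ n ∈ Finset.Icc 1 m, ((ArithmeticFunction.moebius n : ℤ) : ℝ) * ((m / n : ℕ) : ℝ) = 1 := by
  have h := ArithmeticFunction.sum_Ioc_mul_zeta_eq_sum (R := ℝ) (ArithmeticFunction.moebius : ArithmeticFunction ℝ) m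
  rw [ArithmeticFunction.coe_moebius_mul_coe_zeta] at h
  have e : Finset.Ioc 0 m = Finset.Icc 1 m := by
    ext k; simp only [Finset.mem_Ioc, Finset.mem_Icc]; omega
  rw [e] at h
  have h1 : ∑ n ∈ Finset.Icc 1 m, (1 : ArithmeticFunction ℝ) n = 1 := by
    rw [Finset.sum_eq_single 1]
    · simp
    · intro b _ hb
      exact ArithmeticFunction.one_apply_ne hb
    · intro h2
      exact absurd (Finset.mem_Icc.2 ⟨le_rfl, hm⟩) h2
  rw [h1] at h
  rw [h]
  refine Finset.sum_congr rfl fun n _ => ?_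
  simp

/-- near `x = 1` the error function is linear -/
lemma er_small {N : ℕ} {u : ℝ} (hu0 : 0 ≤ u) (hu : u ≤ Real.log N) (hN : 1 ≤ N) :
    er (tM N) thM aM u = Real.exp u * mN N := by
  have hN0 : (0:ℝ) < N := by exact_mod_cast hN
  set y : ℝ := Real.exp u with hy
  have hy1 : 1 ≤ y := Real.one_le_exp hu0
  have hyN : y ≤ N := by rw [hy, ← Real.le_log_iff_exp_le hN0]; exact hu
  set m : ℕ := ⌊y⌋₊ with hm
  have hm1 : 1 ≤ m := by rw [hm]; exact Nat.le_floor (by simpa using hy1)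
  have hmN : m ≤ N := by
    rw [hm]
    have := Nat.floor_le_floor hyN
    rwa [Nat.floor_natCast] at this
  have h1 : er (tM N) thM aM u = 1 + ∑ n ∈ Finset.Icc 1 N, (((ArithmeticFunction.moebius n : ℤ) : ℝ) * (y / n) -
      ((ArithmeticFunction.moebius n : ℤ) : ℝ) * ((m / n : ℕ) : ℝ)) := by
    unfold er tM thM aM
    rw [sub_eq_add_neg, ← Finset.sum_neg_distrib]
    congr 1
    refine Finset.sum_congr rfl fun n hn => ?_
    rw [Finset.mem_Icc] at hn
    have hn0 : (0:ℝ) < n := by exact_mod_cast hn.1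
    have e1 : 1 / (n:ℝ) * Real.exp u = y / n := by rw [hy]; ring
    rw [e1]
    have e2 : Int.fract (y / n) = y / n - ((m / n : ℕ) : ℝ) := by
      have h2 : ⌊y / (n:ℝ)⌋₊ = m / n := by rw [hm]; exact Nat.floor_div_natCast y n
      have h3 : ((⌊y / (n:ℝ)⌋ : ℤ) : ℝ) = ((⌊y / (n:ℝ)⌋₊ : ℕ) : ℝ) := by
        rw [← Int.natCast_floor_eq_floor (by positivity)]
        simp
      rw [Int.fract, h3, h2]
    rw [e2]
    ring
  rw [h1, Finset.sum_sub_distrib]
  have h2 : ∑ n ∈ Finset.Icc 1 N, ((ArithmeticFunction.moebius n : ℤ) : ℝ) * ((m / n : ℕ) : ℝ) = 1 := by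
    rw [← mu_floor hm1]
    symm
    refine Finset.sum_subset (Finset.Icc_subset_Icc le_rfl hmN) fun n hn hn2 => ?_
    rw [Finset.mem_Icc] at hn hn2
    have : m / n = 0 := Nat.div_eq_of_lt (by omega)
    rw [this]
    simp
  rw [h2]
  unfold mN
  rw [Finset.mul_sum]
  have h3 : ∀ n ∈ Finset.Icc 1 N, ((ArithmeticFunction.moebius n : ℤ) : ℝ) * (y / n) =
      y * (((ArithmeticFunction.moebius n : ℤ) : ℝ) / n) := fun n _ => by ring
  rw [Finset.sum_congr rfl h3]
  ring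

end

end Pool.Agent.Zk17.NB
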