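import Pool.Agent.Zk17.NB.U2
import Pool.Agent.H295R2.Avg

set_option autoImplicit false

/-!
# The mean square of the error function of the truncated Möbius sums
-/

namespace Pool.Agent.Zk17.NB

open MeasureTheory Set Filter Topology
open Pool.Agent.H295R2 (Nice Lap Hf Zt Zs fz Mx mu)

noncomputable section

lemma FN_norm (N : ℕ) {s : ℂ} (hs : 0 ≤ s.re) : ‖FN N s‖ ≤ N := by
  unfold FN
  have : ∀ n ∈ Finset.Icc 1 N, ‖((ArithmeticFunction.moebius n : ℤ) : ℂ) / (n : ℂ) ^ s‖ ≤ 1 := by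
    intro n hn
    rw [Finset.mem_Icc] at hn
    have hn0 : 0 < n := by omega
    rw [norm_div, Complex.norm_intCast, Complex.norm_natCast_cpow_of_pos hn0]
    have h1 : |((ArithmeticFunction.moebius n : ℤ) : ℝ)| ≤ 1 := by
      exact_mod_cast ArithmeticFunction.abs_moebius_le_one
    have h2 : 1 ≤ (n:ℝ) ^ s.re := Real.one_le_rpow (by exact_mod_cast hn.1) hs
    rw [div_le_one (by linarith)]
    linarith
  refine (norm_sum_le_of_le _ this).trans ?_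
  simp

/-- the pointwise bound -/
lemma pointwise {C κ θ σ Cz ε : ℝ} (hθ : 1 / 2 ≤ θ) (hθκ : θ ≤ κ) (hκσ : κ < σ) (hσ1 : σ < 1)
    (hM : ∀ y : ℝ, 1 ≤ y → |Mx y| ≤ C * y ^ κ) (hz : ∀ s : ℂ, θ < s.re → Zs s ≠ 0)
    (hε : 0 < ε) (hε1 : ε ≤ 1 / 8) (hCz : 1 ≤ Cz) (hζ : ∀ s : ℂ, s.re = σ → ‖riemannZeta s‖ ≤ Cz * (1 + |s.im|) ^ ε)
    (N : ℕ) (hN : 1 ≤ N) (s : ℂ) (hs : s.re = σ) :
    ‖Lap (kf (tM N) thM aM) s‖ ^ 2 ≤
      (2 * (mN N ^ 2 * (4 / (1 - σ) ^ 2)) + 32 * Cz ^ 2 * (N:ℝ) ^ (-2:ℝ)) * (1 + |s.im|) ^ (-(3/2) : ℝ) +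
      2 * Cz ^ 2 * (1 + (N:ℝ) ^ (16:ℝ)) ^ (2 * ε) * ‖Lap (RN N) s‖ ^ 2 := by
  have hN1 : (1:ℝ) ≤ N := by exact_mod_cast hN
  have hN0 : (0:ℝ) < N := by linarith
  have hs1 : s ≠ 1 := by
    rintro rfl
    rw [Complex.one_re] at hs
    linarith
  have hs0 : 0 < s.re := by rw [hs]; linarith
  set t : ℝ := |s.im| with ht
  have ht0 : 0 ≤ t := abs_nonneg _
  have h1t : 0 < 1 + t := by linarith
  set J : ℝ := (1 + t) ^ (-(3/2) : ℝ) with hJ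
  have hJ0 : 0 < J := Real.rpow_pos_of_pos h1t _
  rw [lap_M (by linarith) hθκ hM hz N hN (by rw [hs]; exact hκσ) hs1]
  set X : ℂ := (mN N : ℂ) / (s - 1) with hX
  set Y : ℂ := riemannZeta s * Lap (RN N) s with hY
  have hsq : ‖X + Y‖ ^ 2 ≤ 2 * ‖X‖ ^ 2 + 2 * ‖Y‖ ^ 2 := by
    have h1 := norm_add_le X Y
    have h2 : ‖X + Y‖ ^ 2 ≤ (‖X‖ + ‖Y‖) ^ 2 := by gcongr
    nlinarith [sq_nonneg (‖X‖ - ‖Y‖)]
  have hXb : ‖X‖ ^ 2 ≤ mN N ^ 2 * (4 / (1 - σ) ^ 2) * J := by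
    rw [hX, norm_div, Complex.norm_real, Real.norm_eq_abs, div_pow, sq_abs]
    have h1 : (1 - σ) * (1 + t) / 2 ≤ ‖s - 1‖ := by
      have a1 := Complex.abs_re_le_norm (s - 1)
      have a2 := Complex.abs_im_le_norm (s - 1)
      simp only [Complex.sub_re, Complex.one_re, Complex.sub_im, Complex.one_im, sub_zero, hs] at a1 a2
      rw [abs_of_neg (by linarith)] at a1
      rw [← ht] at a2
      nlinarith
    have h2 : 0 < (1 - σ) * (1 + t) / 2 := by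
      have : 0 < 1 - σ := by linarith
      positivity
    have h3 : ((1 - σ) * (1 + t) / 2) ^ 2 ≤ ‖s - 1‖ ^ 2 := by gcongr
    have h4 : (1 + t) ^ (-(3/2) : ℝ) * (1 + t) ^ 2 ≥ 1 := by
      rw [← Real.rpow_natCast (1 + t) 2, ← Real.rpow_add h1t]
      exact Real.one_le_rpow (by linarith) (by norm_num)
    rw [div_le_iff₀ (lt_of_lt_of_le (by positivity) h3)]
    have h5 : 0 < 1 - σ := by linarith
    calc mN N ^ 2 = mN N ^ 2 * 1 := by ring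
      _ ≤ mN N ^ 2 * ((1 + t) ^ (-(3/2) : ℝ) * (1 + t) ^ 2) := by gcongr
      _ = mN N ^ 2 * (4 / (1 - σ) ^ 2) * J * ((1 - σ) * (1 + t) / 2) ^ 2 := by
        rw [hJ]
        field_simp
        norm_num
      _ ≤ _ := by gcongr
  have hYb : ‖Y‖ ^ 2 ≤ 16 * Cz ^ 2 * (N:ℝ) ^ (-2:ℝ) * J + Cz ^ 2 * (1 + (N:ℝ) ^ (16:ℝ)) ^ (2 * ε) * ‖Lap (RN N) s‖ ^ 2 := by
    have hz1 := hζ s hs
    rw [← ht] at hz1
    rcases le_or_gt t ((N:ℝ) ^ (16:ℝ)) with h | h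
    · have h1 : ‖Y‖ ≤ (Cz * (1 + (N:ℝ) ^ (16:ℝ)) ^ ε) * ‖Lap (RN N) s‖ := by
        rw [hY, norm_mul]
        gcongr
        exact hz1.trans (by gcongr)
      have h2 : ‖Y‖ ^ 2 ≤ ((Cz * (1 + (N:ℝ) ^ (16:ℝ)) ^ ε) * ‖Lap (RN N) s‖) ^ 2 := by gcongr
      have h3 : ((Cz * (1 + (N:ℝ) ^ (16:ℝ)) ^ ε) * ‖Lap (RN N) s‖) ^ 2 =
          Cz ^ 2 * (1 + (N:ℝ) ^ (16:ℝ)) ^ (2 * ε) * ‖Lap (RN N) s‖ ^ 2 := by
        rw [mul_pow, mul_pow, ← Real.rpow_natCast (((1 + (N:ℝ) ^ (16:ℝ)) ^ ε)) 2, ← Real.rpow_mul (by positivity)]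
        congr 3
        push_cast
        ring
      rw [h3] at h2
      have : 0 ≤ 16 * Cz ^ 2 * (N:ℝ) ^ (-2:ℝ) * J := by positivity
      linarith
    · have hT1 : 1 ≤ (N:ℝ) ^ (16:ℝ) := Real.one_le_rpow hN1 (by norm_num)
      have ht1 : 1 ≤ t := by linarith
      have hs0' : s ≠ 0 := by rintro rfl; simp at hs0
      have hY2 : Y = (1 - riemannZeta s * FN N s) / s := by
        have h2 := tail_eq (by linarith : 0 ≤ κ) hθκ hM hz N hN (by rw [hs]; exact hκσ : κ < s.re)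
        have h3 := hz s (by rw [hs]; linarith)
        have h4 : fz s * riemannZeta s = 1 := by
          rw [Pool.Agent.H295R2.fz_eq hs1]
          have : riemannZeta s ≠ 0 := by
            intro h5
            apply h3
            rw [← Pool.Agent.H295R2.Zs_eq hs1, h5, mul_zero]
          exact inv_mul_cancel₀ this
        rw [hY, eq_div_iff hs0']
        linear_combination (-riemannZeta s) * h2 + h4
      have hsn : (1 + t) / 2 ≤ ‖s‖ := by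
        have := Complex.abs_im_le_norm s
        rw [← ht] at this
        linarith
      have h1 : ‖Y‖ ≤ 4 * Cz * N * (1 + t) ^ (ε - 1) := by
        have hp0 : 0 < (1 + t) ^ ε := by positivity
        have hp1 : 1 ≤ (1 + t) ^ ε := Real.one_le_rpow (by linarith) hε.le
        rw [hY2, norm_div, div_le_iff₀ (by linarith)]
        calc ‖1 - riemannZeta s * FN N s‖ ≤ 1 + (Cz * (1 + t) ^ ε) * N := by
              refine (norm_sub_le _ _).trans ?_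
              rw [norm_one, norm_mul]
              gcongr
              exact FN_norm N hs0.le
          _ ≤ 2 * Cz * N * (1 + t) ^ ε := by
              have : 1 ≤ Cz * (1 + t) ^ ε * N := by
                have h7 : 1 ≤ Cz * (1 + t) ^ ε := by nlinarith
                nlinarith
              linarith
          _ = 4 * Cz * N * (1 + t) ^ (ε - 1) * ((1 + t) / 2) := by
              rw [Real.rpow_sub_one h1t.ne']
              field_simp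
              ring
          _ ≤ _ := by gcongr
      have h2 : ‖Y‖ ^ 2 ≤ (4 * Cz * N * (1 + t) ^ (ε - 1)) ^ 2 := by gcongr
      have h3 : (4 * Cz * N * (1 + t) ^ (ε - 1)) ^ 2 = 16 * Cz ^ 2 * (N:ℝ) ^ 2 * ((1 + t) ^ (2 * ε - 1 / 2) * J) := by
        rw [hJ, ← Real.rpow_add h1t]
        rw [mul_pow, mul_pow, mul_pow, ← Real.rpow_natCast ((1 + t) ^ (ε - 1)) 2, ← Real.rpow_mul h1t.le]
        norm_num
        left
        congr 1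
        ring
      have h4 : (1 + t) ^ (2 * ε - 1 / 2) ≤ (N:ℝ) ^ (-4:ℝ) := by
        calc (1 + t) ^ (2 * ε - 1 / 2) ≤ (1 + t) ^ (-(1/4) : ℝ) :=
              Real.rpow_le_rpow_of_exponent_le (by linarith) (by linarith)
          _ ≤ ((N:ℝ) ^ (16:ℝ)) ^ (-(1/4) : ℝ) :=
              Real.rpow_le_rpow_of_nonpos (by positivity) (by linarith) (by norm_num)
          _ = (N:ℝ) ^ (-4:ℝ) := by rw [← Real.rpow_mul hN0.le]; norm_num
      have h5 : (N:ℝ) ^ 2 * (N:ℝ) ^ (-4:ℝ) = (N:ℝ) ^ (-2:ℝ) := by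
        rw [← Real.rpow_natCast (N:ℝ) 2, ← Real.rpow_add hN0]
        norm_num
      have h6 : 16 * Cz ^ 2 * (N:ℝ) ^ 2 * ((1 + t) ^ (2 * ε - 1 / 2) * J) ≤ 16 * Cz ^ 2 * (N:ℝ) ^ (-2:ℝ) * J := by
        calc 16 * Cz ^ 2 * (N:ℝ) ^ 2 * ((1 + t) ^ (2 * ε - 1 / 2) * J) ≤
              16 * Cz ^ 2 * (N:ℝ) ^ 2 * ((N:ℝ) ^ (-4:ℝ) * J) := by gcongr
          _ = 16 * Cz ^ 2 * ((N:ℝ) ^ 2 * (N:ℝ) ^ (-4:ℝ)) * J := by ring
          _ = _ := by rw [h5]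
      have : 0 ≤ Cz ^ 2 * (1 + (N:ℝ) ^ (16:ℝ)) ^ (2 * ε) * ‖Lap (RN N) s‖ ^ 2 := by positivity
      linarith
  nlinarith

/-- the mean square of the tail of the Mertens function -/
lemma RN_sq {C κ σ : ℝ} (hκ : 0 ≤ κ) (hκσ : κ < σ) (hM : ∀ y : ℝ, 1 ≤ y → |Mx y| ≤ C * y ^ κ) (N : ℕ) (hN : 1 ≤ N) :
    ∫ u : ℝ, ‖RN N u‖ ^ 2 * Real.exp (-(2 * σ * u)) ≤ 2 * C ^ 2 / (σ - κ) * (N:ℝ) ^ (2 * (κ - σ)) := by
  have hn := RN_nice hκ hM hN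
  have hN0 : (0:ℝ) < N := by exact_mod_cast hN
  have hb : 2 * (κ - σ) < 0 := by linarith
  have h1 := Pool.Agent.H295R2.integrable_ind_exp hb ((2 * C) ^ 2) (Real.log N)
  have h2 : ∀ u : ℝ, ‖RN N u‖ ^ 2 * Real.exp (-(2 * σ * u)) ≤
      (Ici (Real.log N)).indicator (fun u => (2 * C) ^ 2 * Real.exp (2 * (κ - σ) * u)) u := by
    intro u
    by_cases hu : u ∈ Ici (Real.log N)
    · rw [indicator_of_mem hu]
      have h3 := hn.bound u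
      calc ‖RN N u‖ ^ 2 * Real.exp (-(2 * σ * u)) ≤ (2 * C * Real.exp (κ * u)) ^ 2 * Real.exp (-(2 * σ * u)) := by
            gcongr
        _ = (2 * C) ^ 2 * (Real.exp (κ * u) ^ 2 * Real.exp (-(2 * σ * u))) := by ring
        _ = _ := by
          rw [← Real.exp_nat_mul, ← Real.exp_add]
          congr 2
          push_cast
          ring
    · rw [indicator_of_notMem hu, hn.zero u (by simpa using hu)]
      simp
  have h3 : ∫ u : ℝ, ‖RN N u‖ ^ 2 * Real.exp (-(2 * σ * u)) ≤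
      ∫ u : ℝ, (Ici (Real.log N)).indicator (fun u => (2 * C) ^ 2 * Real.exp (2 * (κ - σ) * u)) u :=
    integral_mono_of_nonneg (Eventually.of_forall fun u => by positivity) h1 (Eventually.of_forall h2)
  refine h3.trans (le_of_eq ?_)
  rw [Pool.Agent.H295R2.integral_ind_exp hb]
  have h4 : Real.exp (2 * (κ - σ) * Real.log N) = (N:ℝ) ^ (2 * (κ - σ)) := by
    rw [Real.rpow_def_of_pos hN0]; ring_nf
  rw [h4]
  have : σ - κ ≠ 0 := by linarith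
  have h5 : 2 * (κ - σ) = -(2 * (σ - κ)) := by ring
  rw [h5]
  field_simp

/-- the mean square estimate -/
lemma meansq {C κ θ σ : ℝ} (hθ : 1 / 2 ≤ θ) (hθκ : θ < κ) (hκσ : κ < σ) (hσ1 : σ < 1)
    (hM : ∀ y : ℝ, 1 ≤ y → |Mx y| ≤ C * y ^ κ) (hz : ∀ s : ℂ, θ < s.re → riemannZeta s ≠ 0)
    {ε : ℝ} (hε : 0 < ε) (hε1 : ε ≤ 1 / 8) : ∃ D : ℝ, 0 < D ∧ ∀ N : ℕ, 1 ≤ N →
    ∫ u : ℝ, ‖kf (tM N) thM aM u‖ ^ 2 * Real.exp (-(2 * σ * u)) ≤ D * (N:ℝ) ^ (2 * (κ - σ) + 32 * ε) := by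
  have hC : 0 ≤ C := by
    have := (abs_nonneg _).trans (hM 1 le_rfl)
    simpa using this
  have hZ : ∀ s : ℂ, θ < s.re → Zs s ≠ 0 := by
    intro s hs
    by_cases h : s = 1
    · rw [h]
      unfold Zs
      rw [riemannZeta₁_one]
      exact one_ne_zero
    · rw [← Pool.Agent.H295R2.Zs_eq h]
      exact mul_ne_zero (sub_ne_zero.2 h) (hz s hs)
  obtain ⟨Cz, hCz, hζ⟩ := zeta_line hθ (hθκ.trans hκσ) hσ1 hz hε
  set I0 : ℝ := ∫ ξ : ℝ, (1 + |2 * Real.pi * ξ|) ^ (-(3/2) : ℝ) with hI0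
  have hI0' : 0 ≤ I0 := integral_nonneg fun ξ => by positivity
  have hint0 := Pool.Agent.H295R2.integrable_decay' (a := 3 / 2) (by norm_num)
  set Dm : ℝ := 2 * C / (1 - κ) with hDm
  set D : ℝ := (2 * (Dm ^ 2 * (4 / (1 - σ) ^ 2)) + 32 * Cz ^ 2) * I0 + 2 * Cz ^ 2 * 2 * (2 * C ^ 2 / (σ - κ)) + 1 with hD
  have hσκ : 0 < σ - κ := by linarith
  have h1κ : 0 < 1 - κ := by linarith
  have h1σ : 0 < 1 - σ := by linarith
  have hD0 : 0 < D := by rw [hD]; positivity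
  refine ⟨D, hD0, fun N hN => ?_⟩
  have hN1 : (1:ℝ) ≤ N := by exact_mod_cast hN
  have hN0 : (0:ℝ) < N := by linarith
  have hnk := kf_nice (tM N) thM aM
  have hnR := RN_nice (by linarith : 0 ≤ κ) hM hN
  obtain ⟨p1, p2⟩ := Pool.Agent.H295R2.plancherel_Lap hnk (by linarith : (0:ℝ) < σ)
  obtain ⟨q1, q2⟩ := Pool.Agent.H295R2.plancherel_Lap hnR hκσ
  rw [← p2]
  set W : ℝ := (N:ℝ) ^ (2 * (κ - σ) + 32 * ε) with hW
  have hW0 : 0 < W := Real.rpow_pos_of_pos hN0 _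
  set A1 : ℝ := 2 * (mN N ^ 2 * (4 / (1 - σ) ^ 2)) + 32 * Cz ^ 2 * (N:ℝ) ^ (-2:ℝ) with hA1
  set A2 : ℝ := 2 * Cz ^ 2 * (1 + (N:ℝ) ^ (16:ℝ)) ^ (2 * ε) with hA2
  have hle : ∀ ξ : ℝ, ‖Lap (kf (tM N) thM aM) (σ + 2 * Real.pi * ξ * Complex.I)‖ ^ 2 ≤
      A1 * (1 + |2 * Real.pi * ξ|) ^ (-(3/2) : ℝ) + A2 * ‖Lap (RN N) (σ + 2 * Real.pi * ξ * Complex.I)‖ ^ 2 := by
    intro ξ
    have h := pointwise hθ hθκ.le hκσ hσ1 hM hZ hε hε1 hCz hζ N hN (σ + 2 * Real.pi * ξ * Complex.I)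
      (Pool.Agent.H295R2.line_re σ ξ)
    rw [Pool.Agent.H295R2.line_im] at h
    exact h
  have hI1 : Integrable (fun ξ : ℝ => A1 * (1 + |2 * Real.pi * ξ|) ^ (-(3/2) : ℝ) +
      A2 * ‖Lap (RN N) (σ + 2 * Real.pi * ξ * Complex.I)‖ ^ 2) := (hint0.const_mul _).add (q1.const_mul _)
  have h1 : ∫ ξ : ℝ, ‖Lap (kf (tM N) thM aM) (σ + 2 * Real.pi * ξ * Complex.I)‖ ^ 2 ≤
      A1 * I0 + A2 * (2 * C ^ 2 / (σ - κ) * (N:ℝ) ^ (2 * (κ - σ))) := by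
    calc _ ≤ ∫ ξ : ℝ, (A1 * (1 + |2 * Real.pi * ξ|) ^ (-(3/2) : ℝ) +
          A2 * ‖Lap (RN N) (σ + 2 * Real.pi * ξ * Complex.I)‖ ^ 2) := integral_mono p1 hI1 hle
      _ = A1 * I0 + A2 * ∫ ξ : ℝ, ‖Lap (RN N) (σ + 2 * Real.pi * ξ * Complex.I)‖ ^ 2 := by
        rw [integral_add (hint0.const_mul _) (q1.const_mul _), integral_const_mul, integral_const_mul]
      _ ≤ _ := by
        rw [q2]
        gcongr
        exact RN_sq (by linarith) hκσ hM N hN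
  refine h1.trans ?_
  have hmN := mN_bound (by linarith : 0 ≤ κ) (by linarith) hθκ.le hM hZ N hN
  have hA1b : A1 ≤ (2 * (Dm ^ 2 * (4 / (1 - σ) ^ 2)) + 32 * Cz ^ 2) * W := by
    have e1 : mN N ^ 2 ≤ Dm ^ 2 * W := by
      rw [← sq_abs]
      calc |mN N| ^ 2 ≤ (Dm * (N:ℝ) ^ (κ - 1)) ^ 2 := by gcongr
        _ = Dm ^ 2 * (N:ℝ) ^ (2 * (κ - 1)) := by
          rw [mul_pow, ← Real.rpow_natCast ((N:ℝ) ^ (κ - 1)) 2, ← Real.rpow_mul hN0.le]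
          congr 2
          push_cast
          ring
        _ ≤ Dm ^ 2 * W := by
          have : (N:ℝ) ^ (2 * (κ - 1)) ≤ W := Real.rpow_le_rpow_of_exponent_le hN1 (by linarith)
          gcongr
    have e2 : (N:ℝ) ^ (-2:ℝ) ≤ W := Real.rpow_le_rpow_of_exponent_le hN1 (by linarith)
    calc A1 ≤ 2 * ((Dm ^ 2 * W) * (4 / (1 - σ) ^ 2)) + 32 * Cz ^ 2 * W := by
          rw [hA1]
          gcongr
      _ = _ := by ring
  have hA2b : A2 * (N:ℝ) ^ (2 * (κ - σ)) ≤ 2 * Cz ^ 2 * 2 * W := by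
    have e1 : (1 + (N:ℝ) ^ (16:ℝ)) ^ (2 * ε) ≤ 2 * (N:ℝ) ^ (32 * ε) := by
      have hT1 : 1 ≤ (N:ℝ) ^ (16:ℝ) := Real.one_le_rpow hN1 (by norm_num)
      calc (1 + (N:ℝ) ^ (16:ℝ)) ^ (2 * ε) ≤ (2 * (N:ℝ) ^ (16:ℝ)) ^ (2 * ε) := by
            gcongr
            linarith
        _ = 2 ^ (2 * ε) * (N:ℝ) ^ (32 * ε) := by
          rw [Real.mul_rpow (by norm_num) (by positivity), ← Real.rpow_mul hN0.le]
          congr 2
          ring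
        _ ≤ 2 * (N:ℝ) ^ (32 * ε) := by
          gcongr
          calc (2:ℝ) ^ (2 * ε) ≤ 2 ^ (1:ℝ) := Real.rpow_le_rpow_of_exponent_le (by norm_num) (by linarith)
            _ = 2 := Real.rpow_one _
    calc A2 * (N:ℝ) ^ (2 * (κ - σ)) ≤ (2 * Cz ^ 2 * (2 * (N:ℝ) ^ (32 * ε))) * (N:ℝ) ^ (2 * (κ - σ)) := by
          rw [hA2]
          gcongr
      _ = 2 * Cz ^ 2 * 2 * ((N:ℝ) ^ (2 * (κ - σ)) * (N:ℝ) ^ (32 * ε)) := by ring
      _ = _ := by rw [← Real.rpow_add hN0]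
  calc A1 * I0 + A2 * (2 * C ^ 2 / (σ - κ) * (N:ℝ) ^ (2 * (κ - σ)))
      = A1 * I0 + (A2 * (N:ℝ) ^ (2 * (κ - σ))) * (2 * C ^ 2 / (σ - κ)) := by ring
    _ ≤ ((2 * (Dm ^ 2 * (4 / (1 - σ) ^ 2)) + 32 * Cz ^ 2) * W) * I0 + (2 * Cz ^ 2 * 2 * W) * (2 * C ^ 2 / (σ - κ)) := by
        gcongr
    _ ≤ D * W := by
        rw [hD]
        nlinarith

end

end Pool.Agent.Zk17.NB
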