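import Pool.Agent.Zk17.NB.U3
import Pool.Agent.H353R3.S8

set_option autoImplicit false

/-!
# The rate of approximation of the truncated Möbius sums
-/

namespace Pool.Agent.Zk17.NB

open MeasureTheory Set Filter Topology
open Pool.Agent.H295R2 (Nice Lap Hf Zt Zs fz Mx mu)

noncomputable section

lemma er_int {ι : Type} (t : Finset ι) (θ a : ι → ℝ) (r : ℝ) (hr : 0 < r) (q : ℝ) (hq : 0 < q) (u0 : ℝ) :
    IntegrableOn (fun u : ℝ => Real.exp (-(r * u)) * |er t θ a u| ^ q) (Ioi u0) := by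
  have h1 : IntegrableOn (fun u : ℝ => Real.exp (-r * u) * (1 + ∑ k ∈ t, |a k|) ^ q) (Ioi u0) :=
    (integrableOn_exp_mul_Ioi (by linarith : -r < 0) u0).mul_const _
  refine Integrable.mono' h1 ?_ (Eventually.of_forall fun u => ?_)
  · refine (Measurable.mul (by fun_prop) ?_).aestronglyMeasurable
    exact ((er_meas t θ a).abs).pow_const _
  · rw [norm_mul, Real.norm_of_nonneg (Real.exp_pos _).le, Real.norm_of_nonneg (by positivity),
      show -(r * u) = -r * u by ring]
    gcongr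
    exact er_abs t θ a u

/-- Hölder for the far part -/
lemma tail_holder {p σ : ℝ} (hp : 1 ≤ p) (hp2 : p < 2) (hσ0 : 0 < σ) (hσ : p * σ < 1) {u0 : ℝ} (hu0 : 0 ≤ u0)
    (t : Finset ℕ) (θ a : ℕ → ℝ) :
    ∫ u in Ioi u0, Real.exp (-u) * |er t θ a u| ^ p ≤
      (∫ u : ℝ, ‖kf t θ a u‖ ^ 2 * Real.exp (-(2 * σ * u))) ^ (p / 2) *
      (Real.exp (-((1 - p * σ) * (2 / (2 - p)) * u0)) / ((1 - p * σ) * (2 / (2 - p)))) ^ ((2 - p) / 2) := by
  have hp0 : 0 < p := by linarith
  have h2p : 0 < 2 - p := by linarith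
  set P : ℝ := 2 / p with hP
  set Q : ℝ := 2 / (2 - p) with hQ
  have hP0 : 0 < P := by rw [hP]; positivity
  have hQ0 : 0 < Q := by rw [hQ]; positivity
  have hPQ : P.HolderConjugate Q := by
    rw [Real.holderConjugate_iff]
    refine ⟨by rw [hP, lt_div_iff₀ hp0]; linarith, ?_⟩
    rw [hP, hQ, inv_div, inv_div]
    ring
  set w : ℝ := (1 - p * σ) * Q with hw
  have hw0 : 0 < w := mul_pos (by linarith) hQ0
  set μ : Measure ℝ := volume.restrict (Ioi u0) with hμ
  set f : ℝ → ℝ := fun u => |er t θ a u| ^ p * Real.exp (-(p * σ * u)) with hf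
  set g : ℝ → ℝ := fun u => Real.exp (-((1 - p * σ) * u)) with hg
  have hfm : AEStronglyMeasurable f μ :=
    (Measurable.mul (((er_meas t θ a).abs).pow_const _) (by fun_prop)).aestronglyMeasurable
  have hgm : AEStronglyMeasurable g μ := (by fun_prop : Measurable g).aestronglyMeasurable
  have hfP : ∀ u, f u ^ P = Real.exp (-(2 * σ * u)) * |er t θ a u| ^ (2:ℝ) := by
    intro u
    rw [hf]
    simp only
    rw [Real.mul_rpow (by positivity) (by positivity), ← Real.rpow_mul (abs_nonneg _), ← Real.exp_mul, mul_comm]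
    congr 2
    · rw [hP]; field_simp
    · rw [hP]; field_simp
  have hgQ : ∀ u, g u ^ Q = Real.exp (-w * u) := by
    intro u
    rw [hg]
    simp only
    rw [← Real.exp_mul, hw]
    congr 1
    ring
  have hfL : MemLp f (ENNReal.ofReal P) μ := by
    rw [← integrable_norm_rpow_iff hfm (by simpa using hP0) (by simp), ENNReal.toReal_ofReal hP0.le]
    refine (er_int t θ a (2 * σ) (by linarith) 2 two_pos u0).congr (Eventually.of_forall fun u => ?_)
    simp only
    rw [← hfP, Real.norm_of_nonneg (by rw [hf]; positivity)]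
  have hgL : MemLp g (ENNReal.ofReal Q) μ := by
    rw [← integrable_norm_rpow_iff hgm (by simpa using hQ0) (by simp), ENNReal.toReal_ofReal hQ0.le]
    refine Integrable.congr (integrableOn_exp_mul_Ioi (by linarith : -w < 0) u0) (Eventually.of_forall fun u => ?_)
    simp only
    rw [Real.norm_of_nonneg (by rw [hg]; positivity), hgQ]
  have key := integral_mul_le_Lp_mul_Lq_of_nonneg hPQ (μ := μ)
    (Eventually.of_forall fun u => by rw [hf]; positivity) (Eventually.of_forall fun u => by rw [hg]; positivity) hfL hgL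
  have e1 : ∫ u in Ioi u0, Real.exp (-u) * |er t θ a u| ^ p = ∫ u, f u * g u ∂μ := by
    refine integral_congr_ae (Eventually.of_forall fun u => ?_)
    simp only [hf, hg]
    have : Real.exp (-(p * σ * u)) * Real.exp (-((1 - p * σ) * u)) = Real.exp (-u) := by
      rw [← Real.exp_add]; congr 1; ring
    rw [← this]
    ring
  have e2 : ∫ u, f u ^ P ∂μ ≤ ∫ u : ℝ, ‖kf t θ a u‖ ^ 2 * Real.exp (-(2 * σ * u)) := by
    simp_rw [hfP]
    rw [hμ, ← integral_indicator measurableSet_Ioi]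
    have hnk := kf_nice t θ a
    have hint : Integrable (fun u : ℝ => ‖kf t θ a u‖ ^ 2 * Real.exp (-(2 * σ * u))) := by
      have h0 : Integrable ((Ioi (0:ℝ)).indicator (fun u : ℝ => Real.exp (-(2 * σ * u)) * |er t θ a u| ^ (2:ℝ))) :=
        (integrable_indicator_iff measurableSet_Ioi).2 (er_int t θ a (2 * σ) (by linarith) 2 two_pos 0)
      refine h0.congr ?_
      have hae : ∀ᵐ u : ℝ, u ≠ 0 := by
        have : ({0} : Set ℝ)ᶜ ∈ ae volume := by
          rw [compl_mem_ae_iff]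
          exact measure_singleton 0
        exact this
      filter_upwards [hae] with u hu
      by_cases h : 0 < u
      · rw [indicator_of_mem (mem_Ioi.2 h)]
        unfold kf
        rw [if_pos h.le, Complex.norm_real, Real.norm_eq_abs]
        norm_num
        ring
      · rw [indicator_of_notMem (by rw [mem_Ioi]; exact h)]
        unfold kf
        rw [if_neg (by have := lt_of_le_of_ne (not_lt.1 h) hu; linarith)]
        simp
    refine integral_mono_of_nonneg (Eventually.of_forall fun u => ?_) hint (Eventually.of_forall fun u => ?_)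
    · simp only [Pi.zero_apply]
      exact indicator_nonneg (fun u _ => by positivity) u
    · simp only
      by_cases h : u0 < u
      · rw [indicator_of_mem (mem_Ioi.2 h)]
        unfold kf
        rw [if_pos (by linarith), Complex.norm_real, Real.norm_eq_abs]
        norm_num
        rw [mul_comm]
      · rw [indicator_of_notMem (by rw [mem_Ioi]; exact h)]
        positivity
  have e3 : ∫ u, g u ^ Q ∂μ = Real.exp (-(w * u0)) / w := by
    simp_rw [hgQ]
    rw [hμ, integral_exp_mul_Ioi (by linarith : -w < 0)]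
    rw [neg_div_neg_eq]
    congr 2
    ring
  rw [e1]
  refine key.trans ?_
  rw [e3]
  have eP : 1 / P = p / 2 := by rw [hP]; field_simp
  have eQ : 1 / Q = (2 - p) / 2 := by rw [hQ]; field_simp
  rw [eP, eQ]
  have h0 : 0 ≤ ∫ u, f u ^ P ∂μ := integral_nonneg fun u => by
    simp only [Pi.zero_apply]
    rw [hfP]
    positivity
  gcongr

/-- the near part -/
lemma head_le {p : ℝ} (hp : 1 ≤ p) (N : ℕ) (hN : 1 ≤ N) :
    ∫ u in Ioc 0 (Real.log N), Real.exp (-u) * |er (tM N) thM aM u| ^ p ≤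
      |mN N| ^ p * (N:ℝ) ^ (p - 1) * Real.log N := by
  have hN0 : (0:ℝ) < N := by exact_mod_cast hN
  have hL : 0 ≤ Real.log N := Real.log_natCast_nonneg N
  have hb : ∀ u ∈ Ioc 0 (Real.log N), ‖Real.exp (-u) * |er (tM N) thM aM u| ^ p‖ ≤ |mN N| ^ p * (N:ℝ) ^ (p - 1) := by
    intro u hu
    rw [Real.norm_of_nonneg (by positivity), er_small hu.1.le hu.2 hN, abs_mul, Real.mul_rpow (abs_nonneg _) (abs_nonneg _),
      abs_of_pos (Real.exp_pos u), ← Real.exp_mul]
    have h1 : Real.exp (-u) * (Real.exp (u * p) * |mN N| ^ p) = |mN N| ^ p * Real.exp ((p - 1) * u) := by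
      rw [← mul_assoc, ← Real.exp_add, mul_comm]
      congr 2
      ring
    rw [h1, Real.rpow_def_of_pos hN0]
    have h2 : (p - 1) * u ≤ Real.log N * (p - 1) := by
      rw [mul_comm]
      exact mul_le_mul_of_nonneg_right hu.2 (by linarith)
    exact mul_le_mul_of_nonneg_left (Real.exp_le_exp.2 h2) (by positivity)
  have h := norm_setIntegral_le_of_norm_le_const (μ := volume) (s := Ioc 0 (Real.log N)) (by simp) hb
  refine (le_abs_self _).trans (h.trans (le_of_eq ?_))
  rw [Measure.real, Real.volume_Ioc, ENNReal.toReal_ofReal (by linarith)]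
  ring

/-- **The rate of the truncated Möbius sums.** -/
theorem rate {p θ c : ℝ} (hp : 1 ≤ p) (hθ : 1 / 2 ≤ θ) (hθp : θ < 1 / p)
    (hz : ∀ s : ℂ, θ < s.re → riemannZeta s ≠ 0) (hc : c < 1 / p - θ) :
    ∀ᶠ N : ℕ in atTop, (Ip p (tM N) thM aM) ^ (1 / p) ≤ (N:ℝ) ^ (-c) := by
  have hp0 : 0 < p := by linarith
  have hp1 : 1 / p ≤ 1 := by rw [div_le_one hp0]; exact hp
  have hp2 : p < 2 := by
    have : 1 / 2 < 1 / p := lt_of_le_of_lt hθ hθp
    rw [div_lt_div_iff₀ two_pos hp0] at this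
    linarith
  -- parameters
  set c' : ℝ := max c 0 with hc'
  have hc'1 : c' < 1 / p - θ := max_lt hc (by linarith)
  have hc'0 : 0 ≤ c' := le_max_right _ _
  set g : ℝ := 1 / p - θ - c' with hg
  have hg0 : 0 < g := by rw [hg]; linarith
  have hg1 : g ≤ 1 / 2 := by rw [hg]; linarith
  set κ : ℝ := θ + g / 4 with hκ
  set σ : ℝ := (κ + 1 / p) / 2 with hσ
  set ε : ℝ := g / 64 with hε
  have hκp : κ < 1 / p := by rw [hκ, hg]; linarith
  have hκσ : κ < σ := by rw [hσ]; linarith
  have hσp : σ < 1 / p := by rw [hσ]; linarith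
  have hθκ : θ < κ := by rw [hκ]; linarith
  have hσ1 : σ < 1 := by linarith
  have hε0 : 0 < ε := by rw [hε]; positivity
  have hε1 : ε ≤ 1 / 8 := by rw [hε]; linarith
  have hpσ : p * σ < 1 := by
    rw [lt_div_iff₀ hp0] at hσp
    linarith
  obtain ⟨C, hM'⟩ := H353.mertens_of_free θ hθ hz κ hθκ
  have hM : ∀ y : ℝ, 1 ≤ y → |Mx y| ≤ C * y ^ κ := by
    intro y hy
    have := hM' y hy
    unfold Mx mu
    exact this
  have hC : 0 ≤ C := by
    have := (abs_nonneg _).trans (hM 1 le_rfl)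
    simpa using this
  have hZ : ∀ s : ℂ, θ < s.re → Zs s ≠ 0 := by
    intro s hs
    by_cases h : s = 1
    · rw [h]
      unfold Zs
      rw [riemannZeta₁_one]
      exact one_ne_zero
    · rw [← Pool.Agent.H295R2.Zs_eq h]
      exact mul_ne_zero (sub_ne_zero.2 h) (hz s hs)
  obtain ⟨D, hD0, hD⟩ := meansq hθ hθκ hκσ hσ1 hM hz hε0 hε1
  set w : ℝ := (1 - p * σ) * (2 / (2 - p)) with hw
  have h2p : 0 < 2 - p := by linarith
  have hw0 : 0 < w := mul_pos (by linarith) (by positivity)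
  set E : ℝ := p * κ - 1 + 16 * p * ε with hE
  set Dm : ℝ := 2 * C / (1 - κ) with hDm
  have h1κ : 0 < 1 - κ := by linarith
  have hDm0 : 0 ≤ Dm := by rw [hDm]; positivity
  set K1 : ℝ := Dm ^ p * (1 / (16 * p * ε)) with hK1
  set K2 : ℝ := D ^ (p / 2) * (1 / w) ^ ((2 - p) / 2) with hK2
  have hK10 : 0 ≤ K1 := by rw [hK1]; positivity
  have hK20 : 0 ≤ K2 := by rw [hK2]; positivity
  have main : ∀ N : ℕ, 1 ≤ N → Ip p (tM N) thM aM ≤ (K1 + K2) * (N:ℝ) ^ E := by
    intro N hN
    have hN1 : (1:ℝ) ≤ N := by exact_mod_cast hN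
    have hN0 : (0:ℝ) < N := by linarith
    have hL : 0 ≤ Real.log N := Real.log_natCast_nonneg N
    unfold Ip
    have hi := er_int (tM N) thM aM 1 one_pos p hp0 0
    simp only [one_mul] at hi
    rw [← Ioc_union_Ioi_eq_Ioi hL, setIntegral_union (by
      rw [Set.disjoint_left]; intro x hx hx2; exact absurd hx.2 (not_le.2 hx2)) measurableSet_Ioi
      (hi.mono_set (fun x hx => hx.1)) (hi.mono_set (fun x hx => lt_of_le_of_lt hL hx))]
    have a1 : ∫ u in Ioc 0 (Real.log N), Real.exp (-u) * |er (tM N) thM aM u| ^ p ≤ K1 * (N:ℝ) ^ E := by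
      refine (head_le hp N hN).trans ?_
      have hm := mN_bound (by linarith : 0 ≤ κ) (by linarith) hθκ.le hM hZ N hN
      have hlog : Real.log N ≤ (N:ℝ) ^ (16 * p * ε) / (16 * p * ε) := Real.log_le_rpow_div hN0.le (by positivity)
      calc |mN N| ^ p * (N:ℝ) ^ (p - 1) * Real.log N ≤
            (Dm * (N:ℝ) ^ (κ - 1)) ^ p * (N:ℝ) ^ (p - 1) * ((N:ℝ) ^ (16 * p * ε) / (16 * p * ε)) := by gcongr
        _ = K1 * ((N:ℝ) ^ ((κ - 1) * p) * (N:ℝ) ^ (p - 1) * (N:ℝ) ^ (16 * p * ε)) := by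
          rw [Real.mul_rpow hDm0 (by positivity), ← Real.rpow_mul hN0.le, hK1]
          ring
        _ = K1 * (N:ℝ) ^ E := by
          rw [← Real.rpow_add hN0, ← Real.rpow_add hN0, hE]
          ring_nf
    have a2 : ∫ u in Ioi (Real.log N), Real.exp (-u) * |er (tM N) thM aM u| ^ p ≤ K2 * (N:ℝ) ^ E := by
      refine (tail_holder hp hp2 (by linarith) hpσ hL (tM N) thM aM).trans ?_
      rw [← hw]
      have hD' := hD N hN
      have hint0 : 0 ≤ ∫ u : ℝ, ‖kf (tM N) thM aM u‖ ^ 2 * Real.exp (-(2 * σ * u)) :=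
        integral_nonneg fun u => by positivity
      have e1 : Real.exp (-(w * Real.log N)) = (N:ℝ) ^ (-w) := by
        rw [Real.rpow_def_of_pos hN0]; ring_nf
      rw [e1]
      calc (∫ u : ℝ, ‖kf (tM N) thM aM u‖ ^ 2 * Real.exp (-(2 * σ * u))) ^ (p / 2) * ((N:ℝ) ^ (-w) / w) ^ ((2 - p) / 2)
          ≤ (D * (N:ℝ) ^ (2 * (κ - σ) + 32 * ε)) ^ (p / 2) * ((N:ℝ) ^ (-w) / w) ^ ((2 - p) / 2) := by gcongr
        _ = K2 * ((N:ℝ) ^ ((2 * (κ - σ) + 32 * ε) * (p / 2)) * (N:ℝ) ^ (-w * ((2 - p) / 2))) := by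
          rw [Real.mul_rpow hD0.le (by positivity), ← Real.rpow_mul hN0.le,
            show (N:ℝ) ^ (-w) / w = (1 / w) * (N:ℝ) ^ (-w) by ring,
            Real.mul_rpow (by positivity) (by positivity), ← Real.rpow_mul hN0.le, hK2]
          ring
        _ = K2 * (N:ℝ) ^ E := by
          rw [← Real.rpow_add hN0]
          congr 2
          rw [hE, hw]
          field_simp
          ring
    calc _ ≤ K1 * (N:ℝ) ^ E + K2 * (N:ℝ) ^ E := add_le_add a1 a2
      _ = _ := by ring
  -- conclusion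
  set K : ℝ := K1 + K2 + 1 with hK
  have hKpos : 0 < K := by rw [hK]; linarith
  have ev : ∀ᶠ N : ℕ in atTop, K ^ (1 / p) * (N:ℝ) ^ (-(g / 4)) < 1 := by
    have h1 : Tendsto (fun N : ℕ => K ^ (1 / p) * (N:ℝ) ^ (-(g / 4))) atTop (𝓝 (K ^ (1 / p) * 0)) :=
      ((tendsto_rpow_neg_atTop (by positivity : 0 < g / 4)).comp tendsto_natCast_atTop_atTop).const_mul _
    rw [mul_zero] at h1
    exact h1.eventually (gt_mem_nhds one_pos)
  filter_upwards [ev, eventually_ge_atTop 1] with N h1 hN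
  have hN1 : (1:ℝ) ≤ N := by exact_mod_cast hN
  have hN0 : (0:ℝ) < N := by linarith
  have hI0 : 0 ≤ Ip p (tM N) thM aM := by
    unfold Ip
    exact setIntegral_nonneg measurableSet_Ioi fun u _ => by positivity
  calc (Ip p (tM N) thM aM) ^ (1 / p) ≤ (K * (N:ℝ) ^ E) ^ (1 / p) := by
        apply Real.rpow_le_rpow hI0 _ (by positivity)
        refine (main N hN).trans ?_
        gcongr
        rw [hK]
        linarith
    _ = K ^ (1 / p) * (N:ℝ) ^ (E * (1 / p)) := by
        rw [Real.mul_rpow hKpos.le (by positivity), ← Real.rpow_mul hN0.le]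
    _ = (K ^ (1 / p) * (N:ℝ) ^ (-(g / 4))) * (N:ℝ) ^ (E * (1 / p) + g / 4) := by
        rw [mul_assoc, ← Real.rpow_add hN0]
        congr 2
        ring
    _ ≤ 1 * (N:ℝ) ^ (E * (1 / p) + g / 4) := by gcongr
    _ ≤ (N:ℝ) ^ (-c) := by
        rw [one_mul]
        apply Real.rpow_le_rpow_of_exponent_le hN1
        have h2 : E * (1 / p) = κ - 1 / p + 16 * ε := by
          rw [hE]; field_simp
        rw [h2]
        have h3 : c ≤ c' := le_max_left _ _
        have h4 : κ - 1 / p + 16 * ε + g / 4 = -c' - g / 4 := by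
          rw [hκ, hε]
          linarith
        linarith

end

end Pool.Agent.Zk17.NB
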